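import Pool.Agent.H62.FL.TCov

/-!
# Project FL (MP_8a5d4f_co): the table theorem

Every pseudo-triangle with the corners `0 < b < c` has a slot system.
-/

set_option autoImplicit false

namespace Pool.Agent.H62.FL

section

variable {n b c x w z : ℕ} {valid : (ℕ → St) → Prop}

theorem c_T0i (h0 : 0 < b) (hbc : b < c) (hcn : c < n) (hx : 0 < x ∧ x < b) (hw : b < w ∧ w < c) (hz : c < z ∧ z < n)
    (hS : CovS n b c valid) (hP : CovP n b c x w z valid)
    (hT : TrI b c valid) (h1 : x + 1 < b) (h2 : z + 1 < n) :
    ∃ (st : Fin 14 → ℕ → St) (R L : ℕ → Finset (Fin 14)),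
      (∀ k, valid (st k)) ∧ Good n b c st R L := by
  refine ⟨fun k i => T0i.s k (cl n b c x w z i), _, _, fun k => ?_,
    good_of_tab h0 hbc hcn (T := T0i) (x := x) (w := w) (z := z) ?_ T0i_w (Or.inl hx) (Or.inl hw) (Or.inl hz)
      (fun h => absurd h (by omega)) (fun h => absurd h (by omega)) (fun _ => rfl) ?_ ?_ ?_⟩
  · fin_cases k
    · exact vSa hbc hS rfl (by decide) (by decide)
    · exact vSa hbc hS rfl (by decide) (by decide)
    · exact vSa hbc hS rfl (by decide) (by decide)
    · exact vTi h0 hT rfl rfl (by decide) (by decide)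
    · exact vSb h0 hS rfl (by decide) (by decide)
    · exact vSb h0 hS rfl (by decide) (by decide)
    · exact vSc h0 hbc hS rfl (by decide) (by decide)
    · exact vSc h0 hbc hS rfl (by decide) (by decide)
    · exact vSc h0 hbc hS rfl (by decide) (by decide)
    · exact vEa hw hz hbc hP rfl (by decide) rfl rfl (by decide) (by decide)
    · exact vEb h0 hx hz hbc hP rfl (by decide) (by decide) (by decide) (by decide) (by decide)
    · exact vEc h0 hx hw hbc hP rfl (by decide) (by decide) (by decide) rfl rfl
    · exact vDE hx hw hz hbc hP (by decide) (by decide) rfl rfl (by decide) (by decide)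
    · exact vDE hx hw hz hbc hP (by decide) (by decide) rfl rfl (by decide) (by decide)
  · rw [decide_eq_false (show ¬ b = 1 by omega), decide_eq_false (show ¬ c + 1 = n by omega)]
    exact T0i_ok
  · exact fun i h1 h2 => occ_nl (by omega) (by omega) (by omega) h2
  · exact fun i h1 h2 => occ_nl (by omega) (by omega) (by omega) h2
  · rw [if_neg (by omega)]
    norm_num

theorem c_T1i (h0 : 0 < b) (hbc : b < c) (hcn : c < n) (hx : 0 < x ∧ x < b) (hw : b < w ∧ w < c) (hz : c < z ∧ z < n)
    (hS : CovS n b c valid) (hP : CovP n b c x w z valid)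
    (hT : TrI b c valid) (h1 : x + 1 = b) (h2 : z + 1 < n) :
    ∃ (st : Fin 14 → ℕ → St) (R L : ℕ → Finset (Fin 14)),
      (∀ k, valid (st k)) ∧ Good n b c st R L := by
  refine ⟨fun k i => T1i.s k (cl n b c x w z i), _, _, fun k => ?_,
    good_of_tab h0 hbc hcn (T := T1i) (x := x) (w := w) (z := z) ?_ T1i_w (Or.inl hx) (Or.inl hw) (Or.inl hz)
      (fun h => absurd h (by omega)) (fun h => absurd h (by omega)) (fun _ => rfl) ?_ ?_ ?_⟩
  · fin_cases k
    · exact vSa hbc hS rfl (by decide) (by decide)
    · exact vSa hbc hS rfl (by decide) (by decide)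
    · exact vSa hbc hS rfl (by decide) (by decide)
    · exact vSa hbc hS rfl (by decide) (by decide)
    · exact vTi h0 hT rfl rfl (by decide) (by decide)
    · exact vSb h0 hS rfl (by decide) (by decide)
    · exact vSb h0 hS rfl (by decide) (by decide)
    · exact vSb h0 hS rfl (by decide) (by decide)
    · exact vSc h0 hbc hS rfl (by decide) (by decide)
    · exact vSc h0 hbc hS rfl (by decide) (by decide)
    · exact vSc h0 hbc hS rfl (by decide) (by decide)
    · exact vEb h0 hx hz hbc hP rfl (by decide) (by decide) (by decide) (by decide) (by decide)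
    · exact vEc h0 hx hw hbc hP rfl (by decide) (by decide) (by decide) rfl rfl
    · exact vDE hx hw hz hbc hP (by decide) (by decide) rfl rfl (by decide) (by decide)
  · rw [decide_eq_false (show ¬ b = 1 by omega), decide_eq_false (show ¬ c + 1 = n by omega)]
    exact T1i_ok
  · exact fun i h1 h2 => occ_la _ (by omega) h2
  · exact fun i h1 h2 => occ_nl (by omega) (by omega) (by omega) h2
  · rw [if_neg (by omega)]
    norm_num

theorem c_T0j (h0 : 0 < b) (hbc : b < c) (hcn : c < n) (hx : 0 < x ∧ x < b) (hw : b < w ∧ w < c) (hz : c < z ∧ z < n)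
    (hS : CovS n b c valid) (hP : CovP n b c x w z valid)
    (hT : TrJ n b c valid) (h1 : x + 1 < b) (h2 : z + 1 < n) :
    ∃ (st : Fin 14 → ℕ → St) (R L : ℕ → Finset (Fin 14)),
      (∀ k, valid (st k)) ∧ Good n b c st R L := by
  refine ⟨fun k i => T0j.s k (cl n b c x w z i), _, _, fun k => ?_,
    good_of_tab h0 hbc hcn (T := T0j) (x := x) (w := w) (z := z) ?_ T0j_w (Or.inl hx) (Or.inl hw) (Or.inl hz)
      (fun h => absurd h (by omega)) (fun h => absurd h (by omega)) (fun _ => rfl) ?_ ?_ ?_⟩
  · fin_cases k
    · exact vSa hbc hS rfl (by decide) (by decide)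
    · exact vSa hbc hS rfl (by decide) (by decide)
    · exact vSa hbc hS rfl (by decide) (by decide)
    · exact vSb h0 hS rfl (by decide) (by decide)
    · exact vSb h0 hS rfl (by decide) (by decide)
    · exact vSb h0 hS rfl (by decide) (by decide)
    · exact vTj h0 hbc hT rfl rfl (by decide) (by decide)
    · exact vSc h0 hbc hS rfl (by decide) (by decide)
    · exact vSc h0 hbc hS rfl (by decide) (by decide)
    · exact vEa hw hz hbc hP rfl (by decide) rfl rfl (by decide) (by decide)
    · exact vEb h0 hx hz hbc hP rfl (by decide) (by decide) (by decide) (by decide) (by decide)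
    · exact vEc h0 hx hw hbc hP rfl (by decide) (by decide) (by decide) rfl rfl
    · exact vDE hx hw hz hbc hP (by decide) (by decide) rfl rfl (by decide) (by decide)
    · exact vDE hx hw hz hbc hP (by decide) (by decide) rfl rfl (by decide) (by decide)
  · rw [decide_eq_false (show ¬ b = 1 by omega), decide_eq_false (show ¬ c + 1 = n by omega)]
    exact T0j_ok
  · exact fun i h1 h2 => occ_nl (by omega) (by omega) (by omega) h2
  · exact fun i h1 h2 => occ_nl (by omega) (by omega) (by omega) h2
  · rw [if_neg (by omega)]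
    norm_num

theorem c_T1j (h0 : 0 < b) (hbc : b < c) (hcn : c < n) (hx : 0 < x ∧ x < b) (hw : b < w ∧ w < c) (hz : c < z ∧ z < n)
    (hS : CovS n b c valid) (hP : CovP n b c x w z valid)
    (hT : TrJ n b c valid) (h1 : x + 1 = b) (h2 : z + 1 < n) :
    ∃ (st : Fin 14 → ℕ → St) (R L : ℕ → Finset (Fin 14)),
      (∀ k, valid (st k)) ∧ Good n b c st R L := by
  refine ⟨fun k i => T1j.s k (cl n b c x w z i), _, _, fun k => ?_,
    good_of_tab h0 hbc hcn (T := T1j) (x := x) (w := w) (z := z) ?_ T1j_w (Or.inl hx) (Or.inl hw) (Or.inl hz)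
      (fun h => absurd h (by omega)) (fun h => absurd h (by omega)) (fun _ => rfl) ?_ ?_ ?_⟩
  · fin_cases k
    · exact vSa hbc hS rfl (by decide) (by decide)
    · exact vSa hbc hS rfl (by decide) (by decide)
    · exact vSa hbc hS rfl (by decide) (by decide)
    · exact vSa hbc hS rfl (by decide) (by decide)
    · exact vSb h0 hS rfl (by decide) (by decide)
    · exact vSb h0 hS rfl (by decide) (by decide)
    · exact vSb h0 hS rfl (by decide) (by decide)
    · exact vSb h0 hS rfl (by decide) (by decide)
    · exact vSc h0 hbc hS rfl (by decide) (by decide)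
    · exact vSc h0 hbc hS rfl (by decide) (by decide)
    · exact vTj h0 hbc hT rfl rfl (by decide) (by decide)
    · exact vEb h0 hx hz hbc hP rfl (by decide) (by decide) (by decide) (by decide) (by decide)
    · exact vEc h0 hx hw hbc hP rfl (by decide) (by decide) (by decide) rfl rfl
    · exact vDE hx hw hz hbc hP (by decide) (by decide) rfl rfl (by decide) (by decide)
  · rw [decide_eq_false (show ¬ b = 1 by omega), decide_eq_false (show ¬ c + 1 = n by omega)]
    exact T1j_ok
  · exact fun i h1 h2 => occ_la _ (by omega) h2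
  · exact fun i h1 h2 => occ_nl (by omega) (by omega) (by omega) h2
  · rw [if_neg (by omega)]
    norm_num

theorem c_T3 (h0 : 0 < b) (hbc : b < c) (hcn : c < n) (hx : 0 < x ∧ x < b) (hw : b < w ∧ w < c) (hz : c < z ∧ z < n)
    (hS : CovS n b c valid) (hP : CovP n b c x w z valid)
    (h2 : z + 1 = n) :
    ∃ (st : Fin 14 → ℕ → St) (R L : ℕ → Finset (Fin 14)),
      (∀ k, valid (st k)) ∧ Good n b c st R L := by
  refine ⟨fun k i => T3.s k (cl n b c x w z i), _, _, fun k => ?_,
    good_of_tab h0 hbc hcn (T := T3) (x := x) (w := w) (z := z) ?_ T3_w (Or.inl hx) (Or.inl hw) (Or.inl hz)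
      (fun h => absurd h (by omega)) (fun h => absurd h (by omega)) (fun _ => rfl) ?_ ?_ ?_⟩
  · fin_cases k
    · exact vSa hbc hS rfl (by decide) (by decide)
    · exact vSa hbc hS rfl (by decide) (by decide)
    · exact vSa hbc hS rfl (by decide) (by decide)
    · exact vSa hbc hS rfl (by decide) (by decide)
    · exact vSb h0 hS rfl (by decide) (by decide)
    · exact vSb h0 hS rfl (by decide) (by decide)
    · exact vSb h0 hS rfl (by decide) (by decide)
    · exact vSc h0 hbc hS rfl (by decide) (by decide)
    · exact vSc h0 hbc hS rfl (by decide) (by decide)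
    · exact vSc h0 hbc hS rfl (by decide) (by decide)
    · exact vSc h0 hbc hS rfl (by decide) (by decide)
    · exact vEa hw hz hbc hP rfl (by decide) rfl rfl (by decide) (by decide)
    · exact vEb h0 hx hz hbc hP rfl (by decide) (by decide) (by decide) (by decide) (by decide)
    · exact vDE hx hw hz hbc hP (by decide) (by decide) rfl rfl (by decide) (by decide)
  · rw [decide_eq_false (show ¬ b = 1 by omega), decide_eq_false (show ¬ c + 1 = n by omega)]
    exact T3_ok
  · exact fun i h1 h2 => occ_any (by omega) (by omega) (by omega) h2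
  · exact fun i h1 h2 => occ_la _ (by omega) h2
  · rw [if_neg (by omega)]
    norm_num

theorem c_M0i (h0 : 0 < b) (hbc : b < c) (hcn : c < n) (hx : 0 < x ∧ x < b) (hw : b < w ∧ w < c) (hz : c < z ∧ z < n)
    (hS : CovS n b c valid) (hP : CovN n b c x w z valid)
    (hT : TrJ n b c valid) (h1 : 1 < x) (h2 : c + 1 < z) :
    ∃ (st : Fin 14 → ℕ → St) (R L : ℕ → Finset (Fin 14)),
      (∀ k, valid (st k)) ∧ Good n b c st R L := by
  refine ⟨fun k i => (mT T0i).s k (cl n b c x w z i), _, _, fun k => ?_,
    good_of_tab h0 hbc hcn (T := (mT T0i)) (x := x) (w := w) (z := z) ?_ T0i_mw (Or.inl hx) (Or.inl hw) (Or.inl hz)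
      (fun h => absurd h (by omega)) (fun h => absurd h (by omega)) (fun _ => rfl) ?_ ?_ ?_⟩
  · fin_cases k
    · exact vSa hbc hS rfl (by decide) (by decide)
    · exact vSa hbc hS rfl (by decide) (by decide)
    · exact vSa hbc hS rfl (by decide) (by decide)
    · exact vTj h0 hbc hT rfl rfl (by decide) (by decide)
    · exact vSc h0 hbc hS rfl (by decide) (by decide)
    · exact vSc h0 hbc hS rfl (by decide) (by decide)
    · exact vSb h0 hS rfl (by decide) (by decide)
    · exact vSb h0 hS rfl (by decide) (by decide)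
    · exact vSb h0 hS rfl (by decide) (by decide)
    · exact vNa hx hw hbc hP rfl (by decide) rfl rfl (by decide) (by decide)
    · exact vNc h0 hx hbc hP rfl (by decide) (by decide) (by decide) (by decide) (by decide)
    · exact vNb h0 hw hz hbc hP rfl (by decide) (by decide) (by decide) rfl rfl
    · exact vDF hx hw hz hbc hP (by decide) (by decide) rfl rfl (by decide) (by decide)
    · exact vDF hx hw hz hbc hP (by decide) (by decide) rfl rfl (by decide) (by decide)
  · rw [decide_eq_false (show ¬ b = 1 by omega), decide_eq_false (show ¬ c + 1 = n by omega)]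
    exact T0i_mok
  · exact fun i h1 h2 => occ_nf (by omega) (by omega) (by omega) h2
  · exact fun i h1 h2 => occ_nf (by omega) (by omega) (by omega) h2
  · rw [if_neg (by omega)]
    norm_num

theorem c_M1i (h0 : 0 < b) (hbc : b < c) (hcn : c < n) (hx : 0 < x ∧ x < b) (hw : b < w ∧ w < c) (hz : c < z ∧ z < n)
    (hS : CovS n b c valid) (hP : CovN n b c x w z valid)
    (hT : TrJ n b c valid) (h1 : 1 < x) (h2 : z = c + 1) :
    ∃ (st : Fin 14 → ℕ → St) (R L : ℕ → Finset (Fin 14)),
      (∀ k, valid (st k)) ∧ Good n b c st R L := by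
  refine ⟨fun k i => (mT T1i).s k (cl n b c x w z i), _, _, fun k => ?_,
    good_of_tab h0 hbc hcn (T := (mT T1i)) (x := x) (w := w) (z := z) ?_ T1i_mw (Or.inl hx) (Or.inl hw) (Or.inl hz)
      (fun h => absurd h (by omega)) (fun h => absurd h (by omega)) (fun _ => rfl) ?_ ?_ ?_⟩
  · fin_cases k
    · exact vSa hbc hS rfl (by decide) (by decide)
    · exact vSa hbc hS rfl (by decide) (by decide)
    · exact vSa hbc hS rfl (by decide) (by decide)
    · exact vSa hbc hS rfl (by decide) (by decide)
    · exact vTj h0 hbc hT rfl rfl (by decide) (by decide)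
    · exact vSc h0 hbc hS rfl (by decide) (by decide)
    · exact vSc h0 hbc hS rfl (by decide) (by decide)
    · exact vSc h0 hbc hS rfl (by decide) (by decide)
    · exact vSb h0 hS rfl (by decide) (by decide)
    · exact vSb h0 hS rfl (by decide) (by decide)
    · exact vSb h0 hS rfl (by decide) (by decide)
    · exact vNc h0 hx hbc hP rfl (by decide) (by decide) (by decide) (by decide) (by decide)
    · exact vNb h0 hw hz hbc hP rfl (by decide) (by decide) (by decide) rfl rfl
    · exact vDF hx hw hz hbc hP (by decide) (by decide) rfl rfl (by decide) (by decide)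
  · rw [decide_eq_false (show ¬ b = 1 by omega), decide_eq_false (show ¬ c + 1 = n by omega)]
    exact T1i_mok
  · exact fun i h1 h2 => occ_nf (by omega) (by omega) (by omega) h2
  · exact fun i h1 h2 => occ_fi _ (by omega) (by omega)
  · rw [if_neg (by omega)]
    norm_num

theorem c_M0j (h0 : 0 < b) (hbc : b < c) (hcn : c < n) (hx : 0 < x ∧ x < b) (hw : b < w ∧ w < c) (hz : c < z ∧ z < n)
    (hS : CovS n b c valid) (hP : CovN n b c x w z valid)
    (hT : TrI b c valid) (h1 : 1 < x) (h2 : c + 1 < z) :
    ∃ (st : Fin 14 → ℕ → St) (R L : ℕ → Finset (Fin 14)),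
      (∀ k, valid (st k)) ∧ Good n b c st R L := by
  refine ⟨fun k i => (mT T0j).s k (cl n b c x w z i), _, _, fun k => ?_,
    good_of_tab h0 hbc hcn (T := (mT T0j)) (x := x) (w := w) (z := z) ?_ T0j_mw (Or.inl hx) (Or.inl hw) (Or.inl hz)
      (fun h => absurd h (by omega)) (fun h => absurd h (by omega)) (fun _ => rfl) ?_ ?_ ?_⟩
  · fin_cases k
    · exact vSa hbc hS rfl (by decide) (by decide)
    · exact vSa hbc hS rfl (by decide) (by decide)
    · exact vSa hbc hS rfl (by decide) (by decide)
    · exact vSc h0 hbc hS rfl (by decide) (by decide)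
    · exact vSc h0 hbc hS rfl (by decide) (by decide)
    · exact vSc h0 hbc hS rfl (by decide) (by decide)
    · exact vTi h0 hT rfl rfl (by decide) (by decide)
    · exact vSb h0 hS rfl (by decide) (by decide)
    · exact vSb h0 hS rfl (by decide) (by decide)
    · exact vNa hx hw hbc hP rfl (by decide) rfl rfl (by decide) (by decide)
    · exact vNc h0 hx hbc hP rfl (by decide) (by decide) (by decide) (by decide) (by decide)
    · exact vNb h0 hw hz hbc hP rfl (by decide) (by decide) (by decide) rfl rfl
    · exact vDF hx hw hz hbc hP (by decide) (by decide) rfl rfl (by decide) (by decide)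
    · exact vDF hx hw hz hbc hP (by decide) (by decide) rfl rfl (by decide) (by decide)
  · rw [decide_eq_false (show ¬ b = 1 by omega), decide_eq_false (show ¬ c + 1 = n by omega)]
    exact T0j_mok
  · exact fun i h1 h2 => occ_nf (by omega) (by omega) (by omega) h2
  · exact fun i h1 h2 => occ_nf (by omega) (by omega) (by omega) h2
  · rw [if_neg (by omega)]
    norm_num

theorem c_M1j (h0 : 0 < b) (hbc : b < c) (hcn : c < n) (hx : 0 < x ∧ x < b) (hw : b < w ∧ w < c) (hz : c < z ∧ z < n)
    (hS : CovS n b c valid) (hP : CovN n b c x w z valid)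
    (hT : TrI b c valid) (h1 : 1 < x) (h2 : z = c + 1) :
    ∃ (st : Fin 14 → ℕ → St) (R L : ℕ → Finset (Fin 14)),
      (∀ k, valid (st k)) ∧ Good n b c st R L := by
  refine ⟨fun k i => (mT T1j).s k (cl n b c x w z i), _, _, fun k => ?_,
    good_of_tab h0 hbc hcn (T := (mT T1j)) (x := x) (w := w) (z := z) ?_ T1j_mw (Or.inl hx) (Or.inl hw) (Or.inl hz)
      (fun h => absurd h (by omega)) (fun h => absurd h (by omega)) (fun _ => rfl) ?_ ?_ ?_⟩
  · fin_cases k
    · exact vSa hbc hS rfl (by decide) (by decide)
    · exact vSa hbc hS rfl (by decide) (by decide)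
    · exact vSa hbc hS rfl (by decide) (by decide)
    · exact vSa hbc hS rfl (by decide) (by decide)
    · exact vSc h0 hbc hS rfl (by decide) (by decide)
    · exact vSc h0 hbc hS rfl (by decide) (by decide)
    · exact vSc h0 hbc hS rfl (by decide) (by decide)
    · exact vSc h0 hbc hS rfl (by decide) (by decide)
    · exact vSb h0 hS rfl (by decide) (by decide)
    · exact vSb h0 hS rfl (by decide) (by decide)
    · exact vTi h0 hT rfl rfl (by decide) (by decide)
    · exact vNc h0 hx hbc hP rfl (by decide) (by decide) (by decide) (by decide) (by decide)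
    · exact vNb h0 hw hz hbc hP rfl (by decide) (by decide) (by decide) rfl rfl
    · exact vDF hx hw hz hbc hP (by decide) (by decide) rfl rfl (by decide) (by decide)
  · rw [decide_eq_false (show ¬ b = 1 by omega), decide_eq_false (show ¬ c + 1 = n by omega)]
    exact T1j_mok
  · exact fun i h1 h2 => occ_nf (by omega) (by omega) (by omega) h2
  · exact fun i h1 h2 => occ_fi _ (by omega) (by omega)
  · rw [if_neg (by omega)]
    norm_num

theorem c_M3 (h0 : 0 < b) (hbc : b < c) (hcn : c < n) (hx : 0 < x ∧ x < b) (hw : b < w ∧ w < c) (hz : c < z ∧ z < n)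
    (hS : CovS n b c valid) (hP : CovN n b c x w z valid)
    (h1 : x = 1) :
    ∃ (st : Fin 14 → ℕ → St) (R L : ℕ → Finset (Fin 14)),
      (∀ k, valid (st k)) ∧ Good n b c st R L := by
  refine ⟨fun k i => (mT T3).s k (cl n b c x w z i), _, _, fun k => ?_,
    good_of_tab h0 hbc hcn (T := (mT T3)) (x := x) (w := w) (z := z) ?_ T3_mw (Or.inl hx) (Or.inl hw) (Or.inl hz)
      (fun h => absurd h (by omega)) (fun h => absurd h (by omega)) (fun _ => rfl) ?_ ?_ ?_⟩
  · fin_cases k
    · exact vSa hbc hS rfl (by decide) (by decide)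
    · exact vSa hbc hS rfl (by decide) (by decide)
    · exact vSa hbc hS rfl (by decide) (by decide)
    · exact vSa hbc hS rfl (by decide) (by decide)
    · exact vSc h0 hbc hS rfl (by decide) (by decide)
    · exact vSc h0 hbc hS rfl (by decide) (by decide)
    · exact vSc h0 hbc hS rfl (by decide) (by decide)
    · exact vSb h0 hS rfl (by decide) (by decide)
    · exact vSb h0 hS rfl (by decide) (by decide)
    · exact vSb h0 hS rfl (by decide) (by decide)
    · exact vSb h0 hS rfl (by decide) (by decide)
    · exact vNa hx hw hbc hP rfl (by decide) rfl rfl (by decide) (by decide)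
    · exact vNc h0 hx hbc hP rfl (by decide) (by decide) (by decide) (by decide) (by decide)
    · exact vDF hx hw hz hbc hP (by decide) (by decide) rfl rfl (by decide) (by decide)
  · rw [decide_eq_false (show ¬ b = 1 by omega), decide_eq_false (show ¬ c + 1 = n by omega)]
    exact T3_mok
  · exact fun i h1 h2 => occ_fi _ (by omega) (by omega)
  · exact fun i h1 h2 => occ_any (by omega) (by omega) (by omega) h2
  · rw [if_neg (by omega)]
    norm_num

theorem c_TX (h0 : 0 < b) (hbc : b < c) (hcn : c < n) (hx : 0 < x ∧ x < b) (hw : b < w ∧ w < c) (hz : c < z ∧ z < n)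
    (hS : CovS n b c valid) (hP : CovX n b c x w z valid) :
    ∃ (st : Fin 14 → ℕ → St) (R L : ℕ → Finset (Fin 14)),
      (∀ k, valid (st k)) ∧ Good n b c st R L := by
  refine ⟨fun k i => TX.s k (cl n b c x w z i), _, _, fun k => ?_,
    good_of_tab h0 hbc hcn (T := TX) (x := x) (w := w) (z := z) ?_ TX_w (Or.inl hx) (Or.inl hw) (Or.inl hz)
      (fun h => absurd h (by omega)) (fun h => absurd h (by omega)) (fun _ => rfl) ?_ ?_ ?_⟩
  · fin_cases k
    · exact vSa hbc hS rfl (by decide) (by decide)
    · exact vSa hbc hS rfl (by decide) (by decide)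
    · exact vSa hbc hS rfl (by decide) (by decide)
    · exact vSa hbc hS rfl (by decide) (by decide)
    · exact vSb h0 hS rfl (by decide) (by decide)
    · exact vSb h0 hS rfl (by decide) (by decide)
    · exact vSb h0 hS rfl (by decide) (by decide)
    · exact vSb h0 hS rfl (by decide) (by decide)
    · exact vSc h0 hbc hS rfl (by decide) (by decide)
    · exact vSc h0 hbc hS rfl (by decide) (by decide)
    · exact vSc h0 hbc hS rfl (by decide) (by decide)
    · exact vSc h0 hbc hS rfl (by decide) (by decide)
    · exact vDX hx hw hz hbc hP (by decide) (by decide) rfl rfl (by decide) (by decide)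
    · exact vDY hx hw hz hbc hP (by decide) (by decide) rfl rfl (by decide) (by decide)
  · rw [decide_eq_false (show ¬ b = 1 by omega), decide_eq_false (show ¬ c + 1 = n by omega)]
    exact TX_ok
  · exact fun i h1 h2 => occ_any (by omega) (by omega) (by omega) h2
  · exact fun i h1 h2 => occ_any (by omega) (by omega) (by omega) h2
  · rw [if_neg (by omega)]
    norm_num

theorem c_Ka (h0 : 0 < b) (hbc : b < c) (hcn : c < n) (hb : 1 < b) (hc : c + 1 < n)
    (hw : b < w ∧ w < c) (hS : CovS n b c valid) (hP : CovA n b c w valid) :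
    ∃ (st : Fin 14 → ℕ → St) (R L : ℕ → Finset (Fin 14)),
      (∀ k, valid (st k)) ∧ Good n b c st R L := by
  refine ⟨fun k i => Ka.s k (cl n b c n w n i), _, _, fun k => ?_,
    good_of_tab h0 hbc hcn (T := Ka) (x := n) (w := w) (z := n) ?_ Ka_w (Or.inr rfl) (Or.inl hw) (Or.inr rfl)
      (fun h => absurd h (by omega)) (fun h => absurd h (by omega)) (fun _ => rfl) ?_ ?_ ?_⟩
  · fin_cases k
    · exact vSa hbc hS rfl (by decide) (by decide)
    · exact vSa hbc hS rfl (by decide) (by decide)
    · exact vSa hbc hS rfl (by decide) (by decide)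
    · exact vSa hbc hS rfl (by decide) (by decide)
    · exact vSb h0 hS rfl (by decide) (by decide)
    · exact vSb h0 hS rfl (by decide) (by decide)
    · exact vSb h0 hS rfl (by decide) (by decide)
    · exact vSb h0 hS rfl (by decide) (by decide)
    · exact vSc h0 hbc hS rfl (by decide) (by decide)
    · exact vSc h0 hbc hS rfl (by decide) (by decide)
    · exact vSc h0 hbc hS rfl (by decide) (by decide)
    · exact vSc h0 hbc hS rfl (by decide) (by decide)
    · exact vA1 hw hP rfl (by decide) rfl rfl
    · exact vA2 hw hbc hP rfl (by decide) rfl rfl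
  · rw [decide_eq_false (show ¬ b = 1 by omega), decide_eq_false (show ¬ c + 1 = n by omega)]
    exact Ka_ok
  · exact fun i h1 h2 => occ_no _ _ _ _ (by omega)
  · exact fun i h1 h2 => occ_no _ _ _ _ (by omega)
  · rw [if_neg (by omega)]
    norm_num

theorem c_Kb (h0 : 0 < b) (hbc : b < c) (hcn : c < n) (hb : 1 < b)
    (hz : c < z ∧ z < n) (hS : CovS n b c valid) (hP : CovB n b c z valid) :
    ∃ (st : Fin 14 → ℕ → St) (R L : ℕ → Finset (Fin 14)),
      (∀ k, valid (st k)) ∧ Good n b c st R L := by
  refine ⟨fun k i => Kb.s k (cl n b c n n z i), _, _, fun k => ?_,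
    good_of_tab h0 hbc hcn (T := Kb) (x := n) (w := n) (z := z) ?_ Kb_w (Or.inr rfl) (Or.inr rfl) (Or.inl hz)
      (fun h => absurd h (by omega)) (fun h => absurd h (by omega)) (fun _ => rfl) ?_ ?_ ?_⟩
  · fin_cases k
    · exact vSa hbc hS rfl (by decide) (by decide)
    · exact vSa hbc hS rfl (by decide) (by decide)
    · exact vSa hbc hS rfl (by decide) (by decide)
    · exact vSa hbc hS rfl (by decide) (by decide)
    · exact vSb h0 hS rfl (by decide) (by decide)
    · exact vSb h0 hS rfl (by decide) (by decide)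
    · exact vSb h0 hS rfl (by decide) (by decide)
    · exact vSb h0 hS rfl (by decide) (by decide)
    · exact vSc h0 hbc hS rfl (by decide) (by decide)
    · exact vSc h0 hbc hS rfl (by decide) (by decide)
    · exact vSc h0 hbc hS rfl (by decide) (by decide)
    · exact vSc h0 hbc hS rfl (by decide) (by decide)
    · exact vB1 h0 hbc hz hP rfl (by decide) (by decide) (by decide)
    · exact vB2 h0 hbc hz hP rfl (by decide) (by decide) (by decide)
  · rw [decide_eq_false (show ¬ b = 1 by omega), decide_eq_false (show ¬ c + 1 = n by omega)]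
    exact Kb_ok
  · exact fun i h1 h2 => occ_no _ _ _ _ (by omega)
  · exact fun i h1 h2 => occ_any (by omega) (by omega) (by omega) h2
  · rw [if_neg (by omega)]
    norm_num

theorem c_Kc (h0 : 0 < b) (hbc : b < c) (hcn : c < n) (hc : c + 1 < n)
    (hx : 0 < x ∧ x < b) (hS : CovS n b c valid) (hP : CovC n b c x valid) :
    ∃ (st : Fin 14 → ℕ → St) (R L : ℕ → Finset (Fin 14)),
      (∀ k, valid (st k)) ∧ Good n b c st R L := by
  refine ⟨fun k i => (mT Kb).s k (cl n b c x 0 0 i), _, _, fun k => ?_,
    good_of_tab h0 hbc hcn (T := (mT Kb)) (x := x) (w := 0) (z := 0) ?_ Kb_mw (Or.inl hx) (Or.inr rfl) (Or.inr rfl)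
      (fun h => absurd h (by omega)) (fun h => absurd h (by omega)) (fun _ => rfl) ?_ ?_ ?_⟩
  · fin_cases k
    · exact vSa hbc hS rfl (by decide) (by decide)
    · exact vSa hbc hS rfl (by decide) (by decide)
    · exact vSa hbc hS rfl (by decide) (by decide)
    · exact vSa hbc hS rfl (by decide) (by decide)
    · exact vSc h0 hbc hS rfl (by decide) (by decide)
    · exact vSc h0 hbc hS rfl (by decide) (by decide)
    · exact vSc h0 hbc hS rfl (by decide) (by decide)
    · exact vSc h0 hbc hS rfl (by decide) (by decide)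
    · exact vSb h0 hS rfl (by decide) (by decide)
    · exact vSb h0 hS rfl (by decide) (by decide)
    · exact vSb h0 hS rfl (by decide) (by decide)
    · exact vSb h0 hS rfl (by decide) (by decide)
    · exact vC1 h0 hbc hx hP rfl (by decide) (by decide) (by decide)
    · exact vC2 h0 hbc hx hP rfl (by decide) (by decide) (by decide)
  · rw [decide_eq_false (show ¬ b = 1 by omega), decide_eq_false (show ¬ c + 1 = n by omega)]
    exact Kb_mok
  · exact fun i h1 h2 => occ_any (by omega) (by omega) (by omega) h2
  · exact fun i h1 h2 => occ_hi _ _ _ (by omega)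
  · rw [if_neg (by omega)]
    norm_num

theorem c_E1 (h0 : 0 < b) (hbc : b < c) (hcn : c < n) (hb : b = 1) (hc : c + 1 = n)
    (hS : CovS n b c valid) :
    ∃ (st : Fin 14 → ℕ → St) (R L : ℕ → Finset (Fin 14)),
      (∀ k, valid (st k)) ∧ Good n b c st R L := by
  refine ⟨fun k i => E1.s k (cl n b c n n n i), _, _, fun k => ?_,
    good_of_tab h0 hbc hcn (T := E1) (x := n) (w := n) (z := n) ?_ E1_w (Or.inr rfl) (Or.inr rfl) (Or.inr rfl)
      (fun _ => ⟨rfl, rfl⟩) (fun _ => ⟨rfl, rfl⟩) (fun _ => rfl) ?_ ?_ ?_⟩
  · fin_cases k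
    · exact vSa hbc hS rfl (by decide) (by decide)
    · exact vSa hbc hS rfl (by decide) (by decide)
    · exact vSa hbc hS rfl (by decide) (by decide)
    · exact vSa hbc hS rfl (by decide) (by decide)
    · exact vSa hbc hS rfl (by decide) (by decide)
    · exact vSa hbc hS rfl (by decide) (by decide)
    · exact vSb h0 hS rfl (by decide) (by decide)
    · exact vSb h0 hS rfl (by decide) (by decide)
    · exact vSb h0 hS rfl (by decide) (by decide)
    · exact vSb h0 hS rfl (by decide) (by decide)
    · exact vSc h0 hbc hS rfl (by decide) (by decide)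
    · exact vSc h0 hbc hS rfl (by decide) (by decide)
    · exact vSc h0 hbc hS rfl (by decide) (by decide)
    · exact vSc h0 hbc hS rfl (by decide) (by decide)
  · rw [decide_eq_true (show b = 1 by omega), decide_eq_true (show c + 1 = n by omega)]
    exact E1_ok
  · exact fun i h1 h2 => absurd h1 (by omega)
  · exact fun i h1 h2 => absurd h1 (by omega)
  · rw [if_pos (by omega)]
    norm_num

theorem c_E2 (h0 : 0 < b) (hbc : b < c) (hcn : c < n) (hb : b = 1) (hc : c + 1 < n)
    (hS : CovS n b c valid) :
    ∃ (st : Fin 14 → ℕ → St) (R L : ℕ → Finset (Fin 14)),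
      (∀ k, valid (st k)) ∧ Good n b c st R L := by
  refine ⟨fun k i => E2.s k (cl n b c n n n i), _, _, fun k => ?_,
    good_of_tab h0 hbc hcn (T := E2) (x := n) (w := n) (z := n) ?_ E2_w (Or.inr rfl) (Or.inr rfl) (Or.inr rfl)
      (fun _ => ⟨rfl, rfl⟩) (fun h => absurd h (by omega)) (fun _ => rfl) ?_ ?_ ?_⟩
  · fin_cases k
    · exact vSa hbc hS rfl (by decide) (by decide)
    · exact vSa hbc hS rfl (by decide) (by decide)
    · exact vSa hbc hS rfl (by decide) (by decide)
    · exact vSa hbc hS rfl (by decide) (by decide)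
    · exact vSa hbc hS rfl (by decide) (by decide)
    · exact vSb h0 hS rfl (by decide) (by decide)
    · exact vSb h0 hS rfl (by decide) (by decide)
    · exact vSb h0 hS rfl (by decide) (by decide)
    · exact vSb h0 hS rfl (by decide) (by decide)
    · exact vSb h0 hS rfl (by decide) (by decide)
    · exact vSc h0 hbc hS rfl (by decide) (by decide)
    · exact vSc h0 hbc hS rfl (by decide) (by decide)
    · exact vSc h0 hbc hS rfl (by decide) (by decide)
    · exact vSc h0 hbc hS rfl (by decide) (by decide)
  · rw [decide_eq_true (show b = 1 by omega), decide_eq_false (show ¬ c + 1 = n by omega)]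
    exact E2_ok
  · exact fun i h1 h2 => absurd h1 (by omega)
  · exact fun i h1 h2 => occ_no _ _ _ _ (by omega)
  · rw [if_pos (by omega)]
    norm_num

theorem c_E3 (h0 : 0 < b) (hbc : b < c) (hcn : c < n) (hb : 1 < b) (hc : c + 1 = n)
    (hS : CovS n b c valid) :
    ∃ (st : Fin 14 → ℕ → St) (R L : ℕ → Finset (Fin 14)),
      (∀ k, valid (st k)) ∧ Good n b c st R L := by
  refine ⟨fun k i => (mT E2).s k (cl n b c 0 0 0 i), _, _, fun k => ?_,
    good_of_tab h0 hbc hcn (T := (mT E2)) (x := 0) (w := 0) (z := 0) ?_ E2_mw (Or.inr rfl) (Or.inr rfl) (Or.inr rfl)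
      (fun h => absurd h (by omega)) (fun _ => ⟨rfl, rfl⟩) (fun _ => rfl) ?_ ?_ ?_⟩
  · fin_cases k
    · exact vSa hbc hS rfl (by decide) (by decide)
    · exact vSa hbc hS rfl (by decide) (by decide)
    · exact vSa hbc hS rfl (by decide) (by decide)
    · exact vSa hbc hS rfl (by decide) (by decide)
    · exact vSa hbc hS rfl (by decide) (by decide)
    · exact vSc h0 hbc hS rfl (by decide) (by decide)
    · exact vSc h0 hbc hS rfl (by decide) (by decide)
    · exact vSc h0 hbc hS rfl (by decide) (by decide)
    · exact vSc h0 hbc hS rfl (by decide) (by decide)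
    · exact vSc h0 hbc hS rfl (by decide) (by decide)
    · exact vSb h0 hS rfl (by decide) (by decide)
    · exact vSb h0 hS rfl (by decide) (by decide)
    · exact vSb h0 hS rfl (by decide) (by decide)
    · exact vSb h0 hS rfl (by decide) (by decide)
  · rw [decide_eq_false (show ¬ b = 1 by omega), decide_eq_true (show c + 1 = n by omega)]
    exact E2_mok
  · exact fun i h1 h2 => occ_hi _ _ _ (by omega)
  · exact fun i h1 h2 => absurd h1 (by omega)
  · rw [if_pos (by omega)]
    norm_num

theorem c_E4 (h0 : 0 < b) (hbc : b < c) (hcn : c < n) (hb : 1 < b) (hc : c + 1 < n)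
    (hA : b + 1 = c) (hS : CovS n b c valid) :
    ∃ (st : Fin 14 → ℕ → St) (R L : ℕ → Finset (Fin 14)),
      (∀ k, valid (st k)) ∧ Good n b c st R L := by
  refine ⟨fun k i => E4.s k (cl n b c n n n i), _, _, fun k => ?_,
    good_of_tab h0 hbc hcn (T := E4) (x := n) (w := n) (z := n) ?_ E4_w (Or.inr rfl) (Or.inr rfl) (Or.inr rfl)
      (fun h => absurd h (by omega)) (fun h => absurd h (by omega)) (fun h => absurd h (by omega)) ?_ ?_ ?_⟩
  · fin_cases k
    · exact vSa hbc hS rfl (by decide) (by decide)
    · exact vSa hbc hS rfl (by decide) (by decide)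
    · exact vSa hbc hS rfl (by decide) (by decide)
    · exact vSa hbc hS rfl (by decide) (by decide)
    · exact vSb h0 hS rfl (by decide) (by decide)
    · exact vSb h0 hS rfl (by decide) (by decide)
    · exact vSb h0 hS rfl (by decide) (by decide)
    · exact vSb h0 hS rfl (by decide) (by decide)
    · exact vSb h0 hS rfl (by decide) (by decide)
    · exact vSc h0 hbc hS rfl (by decide) (by decide)
    · exact vSc h0 hbc hS rfl (by decide) (by decide)
    · exact vSc h0 hbc hS rfl (by decide) (by decide)
    · exact vSc h0 hbc hS rfl (by decide) (by decide)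
    · exact vSc h0 hbc hS rfl (by decide) (by decide)
  · rw [decide_eq_false (show ¬ b = 1 by omega), decide_eq_false (show ¬ c + 1 = n by omega)]
    exact E4_ok
  · exact fun i h1 h2 => occ_no _ _ _ _ (by omega)
  · exact fun i h1 h2 => occ_no _ _ _ _ (by omega)
  · rw [if_neg (by omega)]
    norm_num

/-- The table theorem: a pseudo-triangle with the corners `0, b, c` has a slot system. -/
theorem table (h0 : 0 < b) (hbc : b < c) (hcn : c < n) (hS : CovS n b c valid)
    (h : 1 < b → b + 1 < c → c + 1 < n →
      (∃ x w z, (0 < x ∧ x < b) ∧ (b < w ∧ w < c) ∧ (c < z ∧ z < n) ∧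
        (((TrI b c valid ∨ TrJ n b c valid) ∧ (CovP n b c x w z valid ∨ CovN n b c x w z valid)) ∨
          CovX n b c x w z valid)) ∨
      (∃ j, (b < j ∧ j < c) ∧ CovA n b c j valid) ∨
      (∃ j, (c < j ∧ j < n) ∧ CovB n b c j valid) ∨
      ∃ j, (0 < j ∧ j < b) ∧ CovC n b c j valid) :
    ∃ (st : Fin 14 → ℕ → St) (R L : ℕ → Finset (Fin 14)),
      (∀ k, valid (st k)) ∧ Good n b c st R L := by
  by_cases hb1 : b = 1
  · by_cases hc1 : c + 1 = n
    · exact c_E1 h0 hbc hcn hb1 hc1 hS
    · exact c_E2 h0 hbc hcn hb1 (by omega) hS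
  by_cases hc1 : c + 1 = n
  · exact c_E3 h0 hbc hcn (by omega) hc1 hS
  by_cases hA1 : b + 1 = c
  · exact c_E4 h0 hbc hcn (by omega) (by omega) hA1 hS
  rcases h (by omega) (by omega) (by omega) with ⟨x, w, z, hx, hw, hz, h1⟩ | ⟨j, hj, h1⟩ |
    ⟨j, hj, h1⟩ | ⟨j, hj, h1⟩
  · rcases h1 with ⟨h2, h3 | h3⟩ | h1
    · by_cases h4 : z + 1 = n
      · exact c_T3 h0 hbc hcn hx hw hz hS h3 h4
      by_cases h5 : x + 1 = b
      · rcases h2 with h2 | h2
        · exact c_T1i h0 hbc hcn hx hw hz hS h3 h2 h5 (by omega)
        · exact c_T1j h0 hbc hcn hx hw hz hS h3 h2 h5 (by omega)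
      · rcases h2 with h2 | h2
        · exact c_T0i h0 hbc hcn hx hw hz hS h3 h2 (by omega) (by omega)
        · exact c_T0j h0 hbc hcn hx hw hz hS h3 h2 (by omega) (by omega)
    · by_cases h4 : x = 1
      · exact c_M3 h0 hbc hcn hx hw hz hS h3 h4
      by_cases h5 : z = c + 1
      · rcases h2 with h2 | h2
        · exact c_M1j h0 hbc hcn hx hw hz hS h3 h2 (by omega) h5
        · exact c_M1i h0 hbc hcn hx hw hz hS h3 h2 (by omega) h5
      · rcases h2 with h2 | h2
        · exact c_M0j h0 hbc hcn hx hw hz hS h3 h2 (by omega) (by omega)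
        · exact c_M0i h0 hbc hcn hx hw hz hS h3 h2 (by omega) (by omega)
    · exact c_TX h0 hbc hcn hx hw hz hS h1
  · exact c_Ka h0 hbc hcn (by omega) (by omega) hj hS h1
  · exact c_Kb h0 hbc hcn (by omega) hj hS h1
  · exact c_Kc h0 hbc hcn (by omega) hj hS h1

end

end Pool.Agent.H62.FL
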