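import Mathlib

/-!
# Project FL (MP_8a5d4f_co): the slot systems

`P` is a polygon with the vertices `0, …, n - 1`, the apex `0` is convex, `b` is the first and `c`
the last convex vertex after it. A slot system consists of fourteen light assignments and of sets
`R i`, `L i` of slots.
-/

set_option autoImplicit false

namespace Pool.Agent.H62.FL

/-- The states of a vertex in a slot: no light; a light which is needed only in the zone `N` (seen
to the right of the line of the previous edge); only in the zone `P` (to the right of the line of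
the next edge); a light at a convex vertex; a light with a fixed half-plane. -/
inductive St | off | N | P | K | H
  deriving DecidableEq

/-- The number of slots in which the vertex `i` has a light. -/
def wt (st : Fin 14 → ℕ → St) (i : ℕ) : ℕ := (Finset.univ.filter fun k => st k i ≠ St.off).card

/-- The contract. -/
structure Good (n b c : ℕ) (st : Fin 14 → ℕ → St) (R L : ℕ → Finset (Fin 14)) : Prop where
  cardR : ∀ i, i < b ∨ (c ≤ i ∧ i < n) → (R i).card = 6
  cardL : ∀ i, (0 < i ∧ i ≤ b) ∨ (c < i ∧ i ≤ n) → (L i).card = 6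
  apex : L n = R 0
  disj : ∀ i, (0 < i ∧ i < b) ∨ (c < i ∧ i < n) → Disjoint (R i) (L i)
  edge : ∀ i, i < b ∨ (c ≤ i ∧ i < n) → Disjoint (R i) (L (i + 1))
  stR : ∀ i, (0 < i ∧ i < b) ∨ (c < i ∧ i < n) → ∀ k ∈ R i, st k i = St.off ∨ st k i = St.N
  stL : ∀ i, (0 < i ∧ i < b) ∨ (c < i ∧ i < n) → ∀ k ∈ L i, st k i = St.off ∨ st k i = St.P
  cntR : ∀ i, (0 < i ∧ i < b) ∨ (c < i ∧ i < n) → 4 ≤ ((R i).filter fun k => st k i = St.N).card
  cntL : ∀ i, (0 < i ∧ i < b) ∨ (c < i ∧ i < n) → 4 ≤ ((L i).filter fun k => st k i = St.P).card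
  lastR : ∀ i, 0 < i → i + 1 = b → 5 ≤ ((R i).filter fun k => st k i = St.N).card
  firstL : c + 1 < n → 5 ≤ ((L (c + 1)).filter fun k => st k (c + 1) = St.P).card
  memA : ∀ k, st k 0 = St.K → k ∈ R 0
  cntA : 5 ≤ (Finset.univ.filter fun k => st k 0 = St.K).card
  memB : ∀ k, st k b = St.K → k ∈ L b
  cntB : 4 ≤ (Finset.univ.filter fun k => st k b = St.K).card
  memC : ∀ k, st k c = St.K → k ∈ R c
  cntC : 4 ≤ (Finset.univ.filter fun k => st k c = St.K).card
  kA : ∀ k, st k 0 = St.off ∨ st k 0 = St.K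
  kB : ∀ k, st k b = St.off ∨ st k b = St.K
  kC : ∀ k, st k c = St.off ∨ st k c = St.K
  kR : ∀ i, (0 < i ∧ i < b) ∨ (c < i ∧ i < n) → ∀ k, st k i ≠ St.K
  kM : ∀ i, b < i → i < c → ∀ k, st k i ≠ St.K
  total : (∑ i ∈ Finset.range n, wt st i) + (if b = 1 ∨ c + 1 = n then 3 else 0) ≤ 9 * (n - 1)

end Pool.Agent.H62.FL
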