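import Pool.Agent.H62.FL.TTab

/-!
# Project FL (MP_8a5d4f_co): covers and tables, class level
-/

set_option autoImplicit false

namespace Pool.Agent.H62.FL

/-! ### The covers -/

def tSa : Cl → St | .a => .K | .C _ _ _ => .N | .B _ _ _ => .P | _ => .off
def tSb : Cl → St | .b => .K | .A _ => .N | .C _ _ _ => .P | _ => .off
def tSc : Cl → St | .c => .K | .B _ _ _ => .N | .A _ => .P | _ => .off

/-- off before the core vertex, `H` at it, `s` behind it -/
def up (s : St) (r : Fin 3) : St := if r = 0 then .off else if r = 1 then .H else s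
/-- `s` before the core vertex, `H` at it, off behind it -/
def dn (s : St) (r : Fin 3) : St := if r = 2 then .off else if r = 1 then .H else s
/-- off before the core vertex, otherwise `s` -/
def ge (s : St) (r : Fin 3) : St := if r = 0 then .off else s
/-- off behind the core vertex, otherwise `s` -/
def le (s : St) (r : Fin 3) : St := if r = 2 then .off else s

def tEa : Cl → St | .a => .K | .C _ _ _ => .N | .A r => up .N r | .B r _ _ => ge .P r | _ => .off
def tEb : Cl → St | .b => .K | .A _ => .N | .B r _ _ => up .N r | .C r _ _ => ge .P r | _ => .off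
def tEc : Cl → St | .c => .K | .B _ _ _ => .N | .C r _ _ => up .N r | .A r => ge .P r | _ => .off
/-- the cover `D_E`, core vertices in the zone `P` -/
def tDE : Cl → St | .C r _ _ => le .P r | .A r => le .P r | .B r _ _ => le .P r | _ => .off
/-- the cover `D_E`, core vertices with a fixed half-plane -/
def tDX : Cl → St | .C r _ _ => dn .P r | .A r => dn .P r | .B r _ _ => dn .P r | _ => .off
/-- the cover `D_F`, core vertices with a fixed half-plane -/
def tDY : Cl → St | .C r _ _ => up .N r | .A r => up .N r | .B r _ _ => up .N r | _ => .off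
/-- the centre is the apex -/
def tD1a : Cl → St | .a => .K | .C _ _ _ => .N | .A r => up .N r | _ => .off
def tD2a : Cl → St | .a => .K | .B _ _ _ => .P | .A r => dn .P r | _ => .off
/-- the centre is `b` -/
def tD1b : Cl → St | .b => .K | .A _ => .N | .B r _ _ => up .N r | _ => .off
def tD2b : Cl → St | .b => .K | .C _ _ _ => .P | .B r _ _ => dn .P r | _ => .off

/-- trades at the apex -/
def tSbi : Cl → St
  | .a => .K
  | .b => .K
  | .A _ => .N
  | .C _ f _ => if f then .off else .P
  | _ => .off
def tSci : Cl → St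
  | .a => .K
  | .c => .K
  | .A _ => .P
  | .B _ _ l => if l then .off else .N
  | _ => .off

/-- additional lights -/
def pC1 (t : Cl → St) : Cl → St | .C r f l => if r = 1 then .N else t (.C r f l) | q => t q
def pB1 (t : Cl → St) : Cl → St | .B r f l => if r = 1 then .P else t (.B r f l) | q => t q
def pCl (t : Cl → St) : Cl → St | .C r f l => if l then .N else t (.C r f l) | q => t q
def pBl (t : Cl → St) : Cl → St | .B r f l => if l then .N else t (.B r f l) | q => t q
def pBf (t : Cl → St) : Cl → St | .B r f l => if f then .P else t (.B r f l) | q => t q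
def pa (t : Cl → St) : Cl → St | .a => .K | q => t q

/-! ### The tables -/

def mkS (l : List (Cl → St)) (k : Fin 14) (q : Cl) : St := (l.getD k.val fun _ => .off) q

/-- sets: apex, `L b`, `R c`, then `R`, `L` on the chain `C` and `R`, `L` on the chain `B` -/
def mkR (A c : Finset (Fin 14)) (rC rB : Fin 3 → Bool → Bool → Finset (Fin 14)) :
    Cl → Finset (Fin 14)
  | .a => A | .c => c | .C r f l => rC r f l | .B r f l => rB r f l | _ => ∅

def mkL (A b : Finset (Fin 14)) (lC lB : Fin 3 → Bool → Bool → Finset (Fin 14)) :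
    Cl → Finset (Fin 14)
  | .a => A | .b => b | .C r f l => lC r f l | .B r f l => lB r f l | _ => ∅

/-- core vertex anywhere -/
def oAny (r : Fin 3) (f l : Bool) : Bool := (r != 0 || !l) && (r != 2 || !f)
/-- core vertex not last -/
def oNl (r : Fin 3) (f l : Bool) : Bool := (r != 0 || !l) && (r != 2 || !f) && (r != 1 || !l)
/-- core vertex not first -/
def oNf (r : Fin 3) (f l : Bool) : Bool := (r != 0 || !l) && (r != 2 || !f) && (r != 1 || !f)
/-- core vertex last -/
def oLa (r : Fin 3) (_ l : Bool) : Bool := (r == 0 && !l) || (r == 1 && l)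
/-- core vertex first -/
def oFi (r : Fin 3) (f _ : Bool) : Bool := (r == 2 && !f) || (r == 1 && f)
/-- no core vertex -/
def oLo (r : Fin 3) (_ _ : Bool) : Bool := r == 0
def oHi (r : Fin 3) (_ _ : Bool) : Bool := r == 2
/-- empty chain -/
def oEm (_ : Fin 3) (_ _ : Bool) : Bool := false

/-! ### Mirror images -/

def mr (r : Fin 3) : Fin 3 := if r = 0 then 2 else if r = 1 then 1 else 0

def mCl : Cl → Cl
  | .a => .a
  | .b => .c
  | .c => .b
  | .C r f l => .B (mr r) l f
  | .A r => .A (mr r)
  | .B r f l => .C (mr r) l f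

def mSt : St → St
  | .N => .P
  | .P => .N
  | .off => .off
  | .K => .K
  | .H => .H

def mT (T : Tab) : Tab where
  s := fun k q => mSt (T.s k (mCl q))
  R := fun q => T.L (mCl q)
  L := fun q => T.R (mCl q)

/-- `D_F` invalid, core vertices of `C` and `B` not last, trade (i) -/
def T0i : Tab where
  s := mkS [tSa, tSa, tSa, tSbi, tSb, tSb, tSc, tSc, tSc, tEa, tEb, tEc, tDE, tDE]
  R := mkR {0, 1, 2, 9, 3, 11} {6, 7, 8, 11, 4, 5}
    (fun r _ _ => if r = 2 then {0, 1, 2, 9, 11, 7} else {0, 1, 2, 9, 7, 8})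
    (fun r _ _ => if r = 2 then {6, 7, 8, 10, 4, 5} else {6, 7, 8, 11, 4, 5})
  L := mkL {0, 1, 2, 9, 3, 11} {3, 4, 5, 10, 12, 13}
    (fun r _ _ => if r = 2 then {3, 4, 5, 10, 12, 6} else {4, 5, 12, 13, 10, 6})
    (fun r _ _ => if r = 0 then {0, 1, 2, 12, 13, 3} else {0, 1, 2, 9, 12, 13})

theorem T0i_ok : TabOK T0i oNl oNl false false :=
  ⟨by decide, by decide, by decide, by decide, by decide, by decide, by decide, by decide,
    by decide, by decide, by decide, by decide, by decide, by decide, by decide, by decide⟩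

theorem T0i_w : TabW T0i oNl oNl true (-4) (-5) (-5) 2 2 2 (-1) 0 0 0 :=
  ⟨by decide, by decide, by decide, by decide, by decide, by decide⟩

theorem T0i_mok : TabOK (mT T0i) oNf oNf false false :=
  ⟨by decide, by decide, by decide, by decide, by decide, by decide, by decide, by decide,
    by decide, by decide, by decide, by decide, by decide, by decide, by decide, by decide⟩

theorem T0i_mw : TabW (mT T0i) oNf oNf true (-4) (-5) (-5) 2 2 2 0 0 0 (-1) :=
  ⟨by decide, by decide, by decide, by decide, by decide, by decide⟩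

/-- the same with trade (ii) -/
def T0j : Tab where
  s := mkS [tSa, tSa, tSa, tSb, tSb, tSb, tSci, tSc, tSc, tEa, tEb, tEc, tDE, tDE]
  R := mkR {0, 1, 2, 9, 6, 13} {6, 7, 8, 11, 3, 4}
    (fun r _ _ => if r = 2 then {0, 1, 2, 9, 11, 6} else {0, 1, 2, 9, 6, 8})
    (fun r _ _ => if r = 2 then {7, 8, 11, 10, 3, 4} else {6, 7, 8, 11, 3, 4})
  L := mkL {0, 1, 2, 9, 6, 13} {3, 4, 5, 10, 12, 13}
    (fun _ _ _ => {3, 4, 5, 12, 10, 7})
    (fun _ _ _ => {0, 1, 2, 9, 12, 13})

theorem T0j_ok : TabOK T0j oNl oNl false false :=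
  ⟨by decide, by decide, by decide, by decide, by decide, by decide, by decide, by decide,
    by decide, by decide, by decide, by decide, by decide, by decide, by decide, by decide⟩

theorem T0j_w : TabW T0j oNl oNl true (-4) (-5) (-5) 2 2 2 0 0 0 (-1) :=
  ⟨by decide, by decide, by decide, by decide, by decide, by decide⟩

theorem T0j_mok : TabOK (mT T0j) oNf oNf false false :=
  ⟨by decide, by decide, by decide, by decide, by decide, by decide, by decide, by decide,
    by decide, by decide, by decide, by decide, by decide, by decide, by decide, by decide⟩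

theorem T0j_mw : TabW (mT T0j) oNf oNf true (-4) (-5) (-5) 2 2 2 (-1) 0 0 0 :=
  ⟨by decide, by decide, by decide, by decide, by decide, by decide⟩

/-- `D_F` invalid, core vertex of `C` last, of `B` not last, trade (i) -/
def T1i : Tab where
  s := mkS [tSa, tSa, tSa, tSa, tSbi, tSb, tSb, tSb, pC1 tSc, tSc, tSc, tEb, tEc, tDE]
  R := mkR {0, 1, 2, 3, 4, 12} {8, 9, 10, 12, 5, 6}
    (fun _ _ _ => {0, 1, 2, 3, 8, 10})
    (fun r _ _ => if r = 2 then {8, 9, 10, 11, 5, 6} else {8, 9, 10, 12, 5, 6})
  L := mkL {0, 1, 2, 3, 4, 12} {4, 5, 6, 7, 11, 13}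
    (fun _ _ _ => {5, 6, 7, 11, 13, 9})
    (fun _ _ _ => {0, 1, 2, 3, 13, 7})

theorem T1i_ok : TabOK T1i oLa oNl false false :=
  ⟨by decide, by decide, by decide, by decide, by decide, by decide, by decide, by decide,
    by decide, by decide, by decide, by decide, by decide, by decide, by decide, by decide⟩

theorem T1i_w : TabW T1i oLa oNl true (-4) (-4) (-5) 3 1 1 (-1) 0 0 0 :=
  ⟨by decide, by decide, by decide, by decide, by decide, by decide⟩

theorem T1i_mok : TabOK (mT T1i) oNf oFi false false :=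
  ⟨by decide, by decide, by decide, by decide, by decide, by decide, by decide, by decide,
    by decide, by decide, by decide, by decide, by decide, by decide, by decide, by decide⟩

theorem T1i_mw : TabW (mT T1i) oNf oFi true (-4) (-5) (-4) 1 1 3 0 0 0 (-1) :=
  ⟨by decide, by decide, by decide, by decide, by decide, by decide⟩

/-- the same with trade (ii) -/
def T1j : Tab where
  s := mkS [tSa, tSa, tSa, tSa, tSb, tSb, tSb, tSb, pC1 tSc, tSc, tSci, tEb, tEc, tDE]
  R := mkR {0, 1, 2, 3, 10, 13} {8, 9, 10, 12, 4, 5}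
    (fun _ _ _ => {0, 1, 2, 3, 8, 10})
    (fun r _ _ => if r = 2 then {8, 9, 12, 11, 4, 5} else {8, 9, 10, 12, 4, 5})
  L := mkL {0, 1, 2, 3, 10, 13} {4, 5, 6, 7, 11, 13}
    (fun _ _ _ => {4, 5, 6, 7, 11, 9})
    (fun _ _ _ => {0, 1, 2, 3, 13, 7})

theorem T1j_ok : TabOK T1j oLa oNl false false :=
  ⟨by decide, by decide, by decide, by decide, by decide, by decide, by decide, by decide,
    by decide, by decide, by decide, by decide, by decide, by decide, by decide, by decide⟩

theorem T1j_w : TabW T1j oLa oNl true (-4) (-4) (-5) 3 1 1 0 0 0 (-1) :=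
  ⟨by decide, by decide, by decide, by decide, by decide, by decide⟩

theorem T1j_mok : TabOK (mT T1j) oNf oFi false false :=
  ⟨by decide, by decide, by decide, by decide, by decide, by decide, by decide, by decide,
    by decide, by decide, by decide, by decide, by decide, by decide, by decide, by decide⟩

theorem T1j_mw : TabW (mT T1j) oNf oFi true (-4) (-5) (-4) 1 1 3 (-1) 0 0 0 :=
  ⟨by decide, by decide, by decide, by decide, by decide, by decide⟩

/-- `D_F` invalid, core vertex of `B` last -/
def T3 : Tab where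
  s := mkS [tSa, tSa, tSa, tSa, tSb, tSb, tSb, tSc, tSc, tSc, tSc, tEa, tEb, tDE]
  R := mkR {0, 1, 2, 3, 11, 12} {7, 8, 9, 10, 4, 5}
    (fun _ _ _ => {0, 1, 2, 3, 11, 9})
    (fun _ _ _ => {7, 8, 9, 10, 4, 5})
  L := mkL {0, 1, 2, 3, 11, 12} {4, 5, 6, 12, 13, 7}
    (fun r _ _ => if r = 2 then {4, 5, 6, 12, 7, 8} else {4, 5, 6, 13, 7, 8})
    (fun _ _ _ => {0, 1, 2, 3, 13, 11})

theorem T3_ok : TabOK T3 oAny oLa false false :=
  ⟨by decide, by decide, by decide, by decide, by decide, by decide, by decide, by decide,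
    by decide, by decide, by decide, by decide, by decide, by decide, by decide, by decide⟩

theorem T3_w : TabW T3 oAny oLa true (-4) (-5) (-5) 1 1 2 0 0 0 0 :=
  ⟨by decide, by decide, by decide, by decide, by decide, by decide⟩

theorem T3_mok : TabOK (mT T3) oFi oAny false false :=
  ⟨by decide, by decide, by decide, by decide, by decide, by decide, by decide, by decide,
    by decide, by decide, by decide, by decide, by decide, by decide, by decide, by decide⟩

theorem T3_mw : TabW (mT T3) oFi oAny true (-4) (-5) (-5) 2 1 1 0 0 0 0 :=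
  ⟨by decide, by decide, by decide, by decide, by decide, by decide⟩

/-- both `D_E` and `D_F` are covers -/
def TX : Tab where
  s := mkS [tSa, tSa, tSa, tSa, pB1 tSb, tSb, tSb, tSb, pC1 tSc, tSc, tSc, tSc, pa tDX, tDY]
  R := mkR {0, 1, 2, 3, 12, 13} {8, 9, 10, 11, 6, 7}
    (fun r _ _ => if r = 2 then {0, 1, 2, 3, 13, 9} else {0, 1, 2, 3, 8, 9})
    (fun _ _ _ => {8, 9, 10, 11, 6, 7})
  L := mkL {0, 1, 2, 3, 12, 13} {4, 5, 6, 7, 10, 11}
    (fun _ _ _ => {4, 5, 6, 7, 10, 11})
    (fun r _ _ => if r = 0 then {0, 1, 2, 3, 12, 5} else {0, 1, 2, 3, 4, 5})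

theorem TX_ok : TabOK TX oAny oAny false false :=
  ⟨by decide, by decide, by decide, by decide, by decide, by decide, by decide, by decide,
    by decide, by decide, by decide, by decide, by decide, by decide, by decide, by decide⟩

theorem TX_w : TabW TX oAny oAny true (-4) (-5) (-5) 2 1 2 0 0 0 0 :=
  ⟨by decide, by decide, by decide, by decide, by decide, by decide⟩

/-- the apex sees a vertex of the opposite chain -/
def Ka : Tab where
  s := mkS [tSa, tSa, tSa, tSa, tSb, tSb, tSb, tSb, tSc, tSc, tSc, tSc, tD1a, tD2a]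
  R := mkR {0, 1, 2, 3, 12, 13} {8, 9, 10, 11, 6, 7}
    (fun _ _ _ => {0, 1, 2, 3, 12, 8})
    (fun _ _ _ => {8, 9, 10, 11, 6, 7})
  L := mkL {0, 1, 2, 3, 12, 13} {4, 5, 6, 7, 10, 11}
    (fun _ _ _ => {4, 5, 6, 7, 10, 11})
    (fun _ _ _ => {0, 1, 2, 3, 13, 4})

theorem Ka_ok : TabOK Ka oLo oLo false false :=
  ⟨by decide, by decide, by decide, by decide, by decide, by decide, by decide, by decide,
    by decide, by decide, by decide, by decide, by decide, by decide, by decide, by decide⟩

theorem Ka_w : TabW Ka oLo oLo true (-3) (-5) (-5) 0 1 0 0 0 0 0 :=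
  ⟨by decide, by decide, by decide, by decide, by decide, by decide⟩

/-- the corner `b` sees a vertex of the opposite chain -/
def Kb : Tab where
  s := mkS [tSa, tSa, tSa, tSa, pB1 tSb, tSb, tSb, tSb, pCl tSc, tSc, tSc, tSc, pa tD1b, tD2b]
  R := mkR {0, 1, 2, 3, 12, 13} {8, 9, 10, 11, 6, 7}
    (fun _ _ _ => {0, 1, 2, 3, 8, 9})
    (fun _ _ _ => {8, 9, 10, 11, 6, 7})
  L := mkL {0, 1, 2, 3, 12, 13} {4, 5, 6, 7, 12, 13}
    (fun _ _ _ => {4, 5, 6, 7, 10, 11})
    (fun r _ _ => if r = 0 then {0, 1, 2, 3, 13, 4} else {0, 1, 2, 3, 4, 5})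

theorem Kb_ok : TabOK Kb oLo oAny false false :=
  ⟨by decide, by decide, by decide, by decide, by decide, by decide, by decide, by decide,
    by decide, by decide, by decide, by decide, by decide, by decide, by decide, by decide⟩

theorem Kb_w : TabW Kb oLo oAny true (-4) (-3) (-5) 0 0 2 0 1 0 0 :=
  ⟨by decide, by decide, by decide, by decide, by decide, by decide⟩

theorem Kb_mok : TabOK (mT Kb) oAny oHi false false :=
  ⟨by decide, by decide, by decide, by decide, by decide, by decide, by decide, by decide,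
    by decide, by decide, by decide, by decide, by decide, by decide, by decide, by decide⟩

theorem Kb_mw : TabW (mT Kb) oAny oHi true (-4) (-5) (-3) 2 0 0 0 0 1 0 :=
  ⟨by decide, by decide, by decide, by decide, by decide, by decide⟩

/-- the chains `C` and `B` are empty -/
def E1 : Tab where
  s := mkS [tSa, tSa, tSa, tSa, tSa, tSa, tSb, tSb, tSb, tSb, tSc, tSc, tSc, tSc]
  R := mkR {0, 1, 2, 3, 4, 5} {10, 11, 12, 13, 6, 7}
    (fun _ _ _ => ∅)
    (fun _ _ _ => ∅)
  L := mkL {0, 1, 2, 3, 4, 5} {6, 7, 8, 9, 10, 11}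
    (fun _ _ _ => ∅)
    (fun _ _ _ => ∅)

theorem E1_ok : TabOK E1 oEm oEm true true :=
  ⟨by decide, by decide, by decide, by decide, by decide, by decide, by decide, by decide,
    by decide, by decide, by decide, by decide, by decide, by decide, by decide, by decide⟩

theorem E1_w : TabW E1 oEm oEm true (-3) (-5) (-5) 0 0 0 0 0 0 0 :=
  ⟨by decide, by decide, by decide, by decide, by decide, by decide⟩

/-- the chain `C` is empty -/
def E2 : Tab where
  s := mkS [tSa, tSa, tSa, tSa, tSa, pBl tSb, tSb, tSb, tSb, tSb, tSc, tSc, tSc, tSc]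
  R := mkR {0, 1, 2, 3, 4, 10} {10, 11, 12, 13, 5, 6}
    (fun _ _ _ => ∅)
    (fun _ _ l => if l = true then {11, 12, 13, 5, 6, 7} else {10, 11, 12, 13, 5, 6})
  L := mkL {0, 1, 2, 3, 4, 10} {5, 6, 7, 8, 9, 11}
    (fun _ _ _ => ∅)
    (fun _ _ _ => {0, 1, 2, 3, 4, 9})

theorem E2_ok : TabOK E2 oEm oLo true false :=
  ⟨by decide, by decide, by decide, by decide, by decide, by decide, by decide, by decide,
    by decide, by decide, by decide, by decide, by decide, by decide, by decide, by decide⟩

theorem E2_w : TabW E2 oEm oLo true (-4) (-4) (-5) 0 0 0 0 0 0 1 :=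
  ⟨by decide, by decide, by decide, by decide, by decide, by decide⟩

theorem E2_mok : TabOK (mT E2) oHi oEm false true :=
  ⟨by decide, by decide, by decide, by decide, by decide, by decide, by decide, by decide,
    by decide, by decide, by decide, by decide, by decide, by decide, by decide, by decide⟩

theorem E2_mw : TabW (mT E2) oHi oEm true (-4) (-5) (-4) 0 0 0 1 0 0 0 :=
  ⟨by decide, by decide, by decide, by decide, by decide, by decide⟩

/-- the chain `A` is empty -/
def E4 : Tab where
  s := mkS [tSa, tSa, tSa, tSa, pBf tSb, tSb, tSb, tSb, pa tSb, pCl tSc, tSc, tSc, tSc, tSc]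
  R := mkR {0, 1, 2, 3, 8, 13} {9, 10, 11, 12, 13, 6}
    (fun _ _ _ => {0, 1, 2, 3, 9, 10})
    (fun _ _ _ => {9, 10, 11, 12, 6, 7})
  L := mkL {0, 1, 2, 3, 8, 13} {4, 5, 6, 7, 8, 11}
    (fun _ _ _ => {4, 5, 6, 7, 11, 12})
    (fun _ _ _ => {0, 1, 2, 3, 4, 5})

theorem E4_ok : TabOK E4 oLo oLo false false :=
  ⟨by decide, by decide, by decide, by decide, by decide, by decide, by decide, by decide,
    by decide, by decide, by decide, by decide, by decide, by decide, by decide, by decide⟩

theorem E4_w : TabW E4 oLo oLo false (-4) (-4) (-4) 0 0 0 0 1 1 0 :=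
  ⟨by decide, by decide, by decide, by decide, by decide, by decide⟩

end Pool.Agent.H62.FL
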