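import Pool.Agent.H62.FL.TGood
import Pool.Agent.H62.FL.TRec

/-!
# Project FL (MP_8a5d4f_co): the covers of a pseudo-triangle

`n` vertices `0, …, n - 1`, the convex ones are `0 < b < c`. Chains: `C = (0, b)`, `A = (b, c)`,
`B = (c, n)`. `valid S` means: the lights of the assignment `S` cover the pseudo-triangle.
-/

set_option autoImplicit false

namespace Pool.Agent.H62.FL

/-- The covers by the lights of two chains and of their common corner. -/
structure CovS (n b c : ℕ) (valid : (ℕ → St) → Prop) : Prop where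
  Sa : ∀ S : ℕ → St, S 0 = .K → (∀ i, 0 < i → i < b → S i = .N) →
    (∀ i, c < i → i < n → S i = .P) → valid S
  Sb : ∀ S : ℕ → St, S b = .K → (∀ i, b < i → i < c → S i = .N) →
    (∀ i, 0 < i → i < b → S i = .P) → valid S
  Sc : ∀ S : ℕ → St, S c = .K → (∀ i, c < i → i < n → S i = .N) →
    (∀ i, b < i → i < c → S i = .P) → valid S

/-- Trade (i): the light at the vertex `1` in the cover `S_b` may be replaced by a light at the
apex. -/
def TrI (b c : ℕ) (valid : (ℕ → St) → Prop) : Prop :=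
  ∀ S : ℕ → St, S 0 = .K → S b = .K → (∀ i, b < i → i < c → S i = .N) →
    (∀ i, 1 < i → i < b → S i = .P) → valid S

/-- Trade (ii): the light at the vertex `n - 1` in the cover `S_c` may be replaced by a light at
the apex. -/
def TrJ (n b c : ℕ) (valid : (ℕ → St) → Prop) : Prop :=
  ∀ S : ℕ → St, S 0 = .K → S c = .K → (∀ i, b < i → i < c → S i = .P) →
    (∀ i, c < i → i + 1 < n → S i = .N) → valid S

/-- The core triangle `x, w, z`, the case in which `D_F` is not a cover. -/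
structure CovP (n b c x w z : ℕ) (valid : (ℕ → St) → Prop) : Prop where
  Ea : ∀ S : ℕ → St, S 0 = .K → (∀ i, 0 < i → i < b → S i = .N) → S w = .H →
    (∀ i, w < i → i < c → S i = .N) → (∀ i, z ≤ i → i < n → S i = .P) → valid S
  Eb : ∀ S : ℕ → St, S b = .K → (∀ i, b < i → i < c → S i = .N) → S z = .H →
    (∀ i, z < i → i < n → S i = .N) → (∀ i, x ≤ i → i < b → S i = .P) → valid S
  Ec : ∀ S : ℕ → St, S c = .K → (∀ i, c < i → i < n → S i = .N) → S x = .H →
    (∀ i, x < i → i < b → S i = .N) → (∀ i, w ≤ i → i < c → S i = .P) → valid S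
  DE : ∀ S : ℕ → St, (∀ i, 0 < i → i ≤ x → S i = .P) → (∀ i, b < i → i ≤ w → S i = .P) →
    (∀ i, c < i → i ≤ z → S i = .P) → valid S

/-- The mirror image of `CovP`: the case in which `D_E` is not a cover. -/
structure CovN (n b c x w z : ℕ) (valid : (ℕ → St) → Prop) : Prop where
  Ea : ∀ S : ℕ → St, S 0 = .K → (∀ i, c < i → i < n → S i = .P) → S w = .H →
    (∀ i, b < i → i < w → S i = .P) → (∀ i, 0 < i → i ≤ x → S i = .N) → valid S
  Eb : ∀ S : ℕ → St, S b = .K → (∀ i, 0 < i → i < b → S i = .P) → S z = .H →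
    (∀ i, c < i → i < z → S i = .P) → (∀ i, b < i → i ≤ w → S i = .N) → valid S
  Ec : ∀ S : ℕ → St, S c = .K → (∀ i, b < i → i < c → S i = .P) → S x = .H →
    (∀ i, 0 < i → i < x → S i = .P) → (∀ i, c < i → i ≤ z → S i = .N) → valid S
  DF : ∀ S : ℕ → St, (∀ i, x ≤ i → i < b → S i = .N) → (∀ i, w ≤ i → i < c → S i = .N) →
    (∀ i, z ≤ i → i < n → S i = .N) → valid S

/-- The case in which `D_E` and `D_F` are covers. -/
structure CovX (n b c x w z : ℕ) (valid : (ℕ → St) → Prop) : Prop where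
  DE : ∀ S : ℕ → St, (∀ i, 0 < i → i < x → S i = .P) → S x = .H →
    (∀ i, b < i → i < w → S i = .P) → S w = .H → (∀ i, c < i → i < z → S i = .P) → S z = .H →
    valid S
  DF : ∀ S : ℕ → St, (∀ i, x < i → i < b → S i = .N) → S x = .H →
    (∀ i, w < i → i < c → S i = .N) → S w = .H → (∀ i, z < i → i < n → S i = .N) → S z = .H →
    valid S

/-- The apex sees the vertex `j` of the chain `A`. -/
structure CovA (n b c j : ℕ) (valid : (ℕ → St) → Prop) : Prop where
  D1 : ∀ S : ℕ → St, S 0 = .K → (∀ i, 0 < i → i < b → S i = .N) → S j = .H →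
    (∀ i, j < i → i < c → S i = .N) → valid S
  D2 : ∀ S : ℕ → St, S 0 = .K → (∀ i, c < i → i < n → S i = .P) → S j = .H →
    (∀ i, b < i → i < j → S i = .P) → valid S

/-- The corner `b` sees the vertex `j` of the chain `B`. -/
structure CovB (n b c j : ℕ) (valid : (ℕ → St) → Prop) : Prop where
  D1 : ∀ S : ℕ → St, S b = .K → (∀ i, b < i → i < c → S i = .N) → S j = .H →
    (∀ i, j < i → i < n → S i = .N) → valid S
  D2 : ∀ S : ℕ → St, S b = .K → (∀ i, 0 < i → i < b → S i = .P) → S j = .H →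
    (∀ i, c < i → i < j → S i = .P) → valid S

/-- The corner `c` sees the vertex `j` of the chain `C`. -/
structure CovC (n b c j : ℕ) (valid : (ℕ → St) → Prop) : Prop where
  D1 : ∀ S : ℕ → St, S c = .K → (∀ i, b < i → i < c → S i = .P) → S j = .H →
    (∀ i, 0 < i → i < j → S i = .P) → valid S
  D2 : ∀ S : ℕ → St, S c = .K → (∀ i, c < i → i < n → S i = .N) → S j = .H →
    (∀ i, j < i → i < b → S i = .N) → valid S

theorem rel_lt {i x : ℕ} (h : i < x) : rel i x = 0 := by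
  unfold rel
  rw [if_pos h]

theorem rel_self (x : ℕ) : rel x x = 1 := rel_eq_one.2 rfl

theorem rel_gt {i x : ℕ} (h : x < i) : rel i x = 2 := by
  unfold rel
  rw [if_neg (by omega), if_neg (by omega)]

theorem rel_le {i x : ℕ} (h : i ≤ x) : rel i x = 0 ∨ rel i x = 1 := by
  rcases Nat.lt_or_eq_of_le h with h | h
  · exact Or.inl (rel_lt h)
  · exact Or.inr (rel_eq_one.2 h)

theorem rel_ge {i x : ℕ} (h : x ≤ i) : rel i x = 1 ∨ rel i x = 2 := by
  rcases Nat.lt_or_eq_of_le h with h | h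
  · exact Or.inr (rel_gt h)
  · exact Or.inl (rel_eq_one.2 h.symm)

section

variable {n b c x w z : ℕ} {valid : (ℕ → St) → Prop} {t : Cl → St}

theorem atC {s : St} (h : ∀ r f l, t (.C r f l) = s) (i : ℕ) (h1 : 0 < i) (h2 : i < b) :
    t (cl n b c x w z i) = s := by
  rw [cl_C h1 h2]
  exact h _ _ _

theorem atA {s : St} (h : ∀ r, t (.A r) = s) (i : ℕ) (h1 : b < i) (h2 : i < c) :
    t (cl n b c x w z i) = s := by
  rw [cl_A h1 h2]
  exact h _

theorem atB {s : St} (hbc : b < c) (h : ∀ r f l, t (.B r f l) = s) (i : ℕ) (h1 : c < i)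
    (_ : i < n) : t (cl n b c x w z i) = s := by
  rw [cl_B hbc h1]
  exact h _ _ _

/-! class level criteria, with the position relative to the core vertex -/

theorem atCr {s : St} {r : Fin 3} (h : ∀ f l, t (.C r f l) = s) (i : ℕ) (h1 : 0 < i) (h2 : i < b)
    (h3 : rel i x = r) : t (cl n b c x w z i) = s := by
  rw [cl_C h1 h2, h3]
  exact h _ _

theorem atAr {s : St} {r : Fin 3} (h : t (.A r) = s) (i : ℕ) (h1 : b < i) (h2 : i < c)
    (h3 : rel i w = r) : t (cl n b c x w z i) = s := by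
  rw [cl_A h1 h2, h3]
  exact h

theorem atBr {s : St} (hbc : b < c) {r : Fin 3} (h : ∀ f l, t (.B r f l) = s) (i : ℕ)
    (h1 : c < i) (h3 : rel i z = r) : t (cl n b c x w z i) = s := by
  rw [cl_B hbc h1, h3]
  exact h _ _

theorem at0 {s : St} (h : t .a = s) : t (cl n b c x w z 0) = s := by
  rw [cl_zero]
  exact h

theorem atb {s : St} (h0 : 0 < b) (h : t .b = s) : t (cl n b c x w z b) = s := by
  rw [cl_b h0]
  exact h

theorem atc {s : St} (h0 : 0 < b) (hbc : b < c) (h : t .c = s) : t (cl n b c x w z c) = s := by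
  rw [cl_c h0 hbc]
  exact h

theorem vSa (hbc : b < c) (hS : CovS n b c valid) (h1 : t .a = .K)
    (h2 : ∀ r f l, t (.C r f l) = .N) (h3 : ∀ r f l, t (.B r f l) = .P) :
    valid fun i => t (cl n b c x w z i) :=
  hS.Sa _ (at0 h1) (atC h2) (atB hbc h3)

theorem vSb (h0 : 0 < b) (hS : CovS n b c valid) (h1 : t .b = .K)
    (h2 : ∀ r, t (.A r) = .N) (h3 : ∀ r f l, t (.C r f l) = .P) :
    valid fun i => t (cl n b c x w z i) :=
  hS.Sb _ (atb h0 h1) (atA h2) (atC h3)

theorem vSc (h0 : 0 < b) (hbc : b < c) (hS : CovS n b c valid) (h1 : t .c = .K)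
    (h2 : ∀ r f l, t (.B r f l) = .N) (h3 : ∀ r, t (.A r) = .P) :
    valid fun i => t (cl n b c x w z i) :=
  hS.Sc _ (atc h0 hbc h1) (atB hbc h2) (atA h3)

theorem vTi (h0 : 0 < b) (hT : TrI b c valid) (h1 : t .a = .K) (h2 : t .b = .K)
    (h3 : ∀ r, t (.A r) = .N) (h4 : ∀ r l, t (.C r false l) = .P) :
    valid fun i => t (cl n b c x w z i) := by
  refine hT _ (at0 h1) (atb h0 h2) (atA h3) fun i hi hb => ?_
  rw [cl_C (by omega) hb, decide_eq_false (show ¬ i = 1 by omega)]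
  exact h4 _ _

theorem vTj (h0 : 0 < b) (hbc : b < c) (hT : TrJ n b c valid) (h1 : t .a = .K) (h2 : t .c = .K)
    (h3 : ∀ r, t (.A r) = .P) (h4 : ∀ r f, t (.B r f false) = .N) :
    valid fun i => t (cl n b c x w z i) := by
  refine hT _ (at0 h1) (atc h0 hbc h2) (atA h3) fun i hi hn => ?_
  rw [cl_B hbc hi, decide_eq_false (show ¬ i + 1 = n by omega)]
  exact h4 _ _

theorem vEa (hw : b < w ∧ w < c) (hz : c < z ∧ z < n) (hbc : b < c)
    (hP : CovP n b c x w z valid) (h1 : t .a = .K) (h2 : ∀ r f l, t (.C r f l) = .N)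
    (h3 : t (.A 1) = .H) (h4 : t (.A 2) = .N) (h5 : ∀ f l, t (.B 1 f l) = .P)
    (h6 : ∀ f l, t (.B 2 f l) = .P) : valid fun i => t (cl n b c x w z i) := by
  refine hP.Ea _ (at0 h1) (atC h2) (atAr h3 w hw.1 hw.2 (rel_self w))
    (fun i h h' => atAr h4 i (by omega) h' (rel_gt h)) fun i h h' => ?_
  rcases rel_ge h with h7 | h7
  · exact atBr hbc h5 i (by omega) h7
  · exact atBr hbc h6 i (by omega) h7

theorem vEb (h0 : 0 < b) (hx : 0 < x ∧ x < b) (hz : c < z ∧ z < n) (hbc : b < c)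
    (hP : CovP n b c x w z valid) (h1 : t .b = .K) (h2 : ∀ r, t (.A r) = .N)
    (h3 : ∀ f l, t (.B 1 f l) = .H) (h4 : ∀ f l, t (.B 2 f l) = .N)
    (h5 : ∀ f l, t (.C 1 f l) = .P) (h6 : ∀ f l, t (.C 2 f l) = .P) :
    valid fun i => t (cl n b c x w z i) := by
  refine hP.Eb _ (atb h0 h1) (atA h2) (atBr hbc h3 z hz.1 (rel_self z))
    (fun i h _ => atBr hbc h4 i (by omega) (rel_gt h)) fun i h h' => ?_
  rcases rel_ge h with h7 | h7
  · exact atCr h5 i (by omega) h' h7
  · exact atCr h6 i (by omega) h' h7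

theorem vEc (h0 : 0 < b) (hx : 0 < x ∧ x < b) (hw : b < w ∧ w < c) (hbc : b < c)
    (hP : CovP n b c x w z valid) (h1 : t .c = .K) (h2 : ∀ r f l, t (.B r f l) = .N)
    (h3 : ∀ f l, t (.C 1 f l) = .H) (h4 : ∀ f l, t (.C 2 f l) = .N)
    (h5 : t (.A 1) = .P) (h6 : t (.A 2) = .P) :
    valid fun i => t (cl n b c x w z i) := by
  refine hP.Ec _ (atc h0 hbc h1) (atB hbc h2) (atCr h3 x hx.1 hx.2 (rel_self x))
    (fun i h h' => atCr h4 i (by omega) h' (rel_gt h)) fun i h h' => ?_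
  rcases rel_ge h with h7 | h7
  · exact atAr h5 i (by omega) h' h7
  · exact atAr h6 i (by omega) h' h7

theorem vDE (hx : 0 < x ∧ x < b) (hw : b < w ∧ w < c) (hz : c < z ∧ z < n) (hbc : b < c)
    (hP : CovP n b c x w z valid) (h1 : ∀ f l, t (.C 0 f l) = .P) (h2 : ∀ f l, t (.C 1 f l) = .P)
    (h3 : t (.A 0) = .P) (h4 : t (.A 1) = .P) (h5 : ∀ f l, t (.B 0 f l) = .P)
    (h6 : ∀ f l, t (.B 1 f l) = .P) : valid fun i => t (cl n b c x w z i) := by
  refine hP.DE _ (fun i h h' => ?_) (fun i h h' => ?_) fun i h h' => ?_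
  · rcases rel_le h' with h7 | h7
    · exact atCr h1 i h (by omega) h7
    · exact atCr h2 i h (by omega) h7
  · rcases rel_le h' with h7 | h7
    · exact atAr h3 i h (by omega) h7
    · exact atAr h4 i h (by omega) h7
  · rcases rel_le h' with h7 | h7
    · exact atBr hbc h5 i h h7
    · exact atBr hbc h6 i h h7

theorem vNa (hx : 0 < x ∧ x < b) (hw : b < w ∧ w < c) (hbc : b < c)
    (hP : CovN n b c x w z valid) (h1 : t .a = .K) (h2 : ∀ r f l, t (.B r f l) = .P)
    (h3 : t (.A 1) = .H) (h4 : t (.A 0) = .P) (h5 : ∀ f l, t (.C 0 f l) = .N)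
    (h6 : ∀ f l, t (.C 1 f l) = .N) : valid fun i => t (cl n b c x w z i) := by
  refine hP.Ea _ (at0 h1) (atB hbc h2) (atAr h3 w hw.1 hw.2 (rel_self w))
    (fun i h h' => atAr h4 i h (by omega) (rel_lt h')) fun i h h' => ?_
  rcases rel_le h' with h7 | h7
  · exact atCr h5 i h (by omega) h7
  · exact atCr h6 i h (by omega) h7

theorem vNb (h0 : 0 < b) (hw : b < w ∧ w < c) (hz : c < z ∧ z < n) (hbc : b < c)
    (hP : CovN n b c x w z valid) (h1 : t .b = .K) (h2 : ∀ r f l, t (.C r f l) = .P)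
    (h3 : ∀ f l, t (.B 1 f l) = .H) (h4 : ∀ f l, t (.B 0 f l) = .P)
    (h5 : t (.A 0) = .N) (h6 : t (.A 1) = .N) :
    valid fun i => t (cl n b c x w z i) := by
  refine hP.Eb _ (atb h0 h1) (atC h2) (atBr hbc h3 z hz.1 (rel_self z))
    (fun i h h' => atBr hbc h4 i h (rel_lt h')) fun i h h' => ?_
  rcases rel_le h' with h7 | h7
  · exact atAr h5 i h (by omega) h7
  · exact atAr h6 i h (by omega) h7

theorem vNc (h0 : 0 < b) (hx : 0 < x ∧ x < b) (hbc : b < c)
    (hP : CovN n b c x w z valid) (h1 : t .c = .K) (h2 : ∀ r, t (.A r) = .P)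
    (h3 : ∀ f l, t (.C 1 f l) = .H) (h4 : ∀ f l, t (.C 0 f l) = .P)
    (h5 : ∀ f l, t (.B 0 f l) = .N) (h6 : ∀ f l, t (.B 1 f l) = .N) :
    valid fun i => t (cl n b c x w z i) := by
  refine hP.Ec _ (atc h0 hbc h1) (atA h2) (atCr h3 x hx.1 hx.2 (rel_self x))
    (fun i h h' => atCr h4 i h (by omega) (rel_lt h')) fun i h h' => ?_
  rcases rel_le h' with h7 | h7
  · exact atBr hbc h5 i h h7
  · exact atBr hbc h6 i h h7

theorem vDF (hx : 0 < x ∧ x < b) (hw : b < w ∧ w < c) (hz : c < z ∧ z < n) (hbc : b < c)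
    (hP : CovN n b c x w z valid) (h1 : ∀ f l, t (.C 1 f l) = .N) (h2 : ∀ f l, t (.C 2 f l) = .N)
    (h3 : t (.A 1) = .N) (h4 : t (.A 2) = .N) (h5 : ∀ f l, t (.B 1 f l) = .N)
    (h6 : ∀ f l, t (.B 2 f l) = .N) : valid fun i => t (cl n b c x w z i) := by
  refine hP.DF _ (fun i h h' => ?_) (fun i h h' => ?_) fun i h h' => ?_
  · rcases rel_ge h with h7 | h7
    · exact atCr h1 i (by omega) h' h7
    · exact atCr h2 i (by omega) h' h7
  · rcases rel_ge h with h7 | h7
    · exact atAr h3 i (by omega) h' h7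
    · exact atAr h4 i (by omega) h' h7
  · rcases rel_ge h with h7 | h7
    · exact atBr hbc h5 i (by omega) h7
    · exact atBr hbc h6 i (by omega) h7

theorem vDX (hx : 0 < x ∧ x < b) (hw : b < w ∧ w < c) (hz : c < z ∧ z < n) (hbc : b < c)
    (hP : CovX n b c x w z valid) (h1 : ∀ f l, t (.C 0 f l) = .P) (h2 : ∀ f l, t (.C 1 f l) = .H)
    (h3 : t (.A 0) = .P) (h4 : t (.A 1) = .H) (h5 : ∀ f l, t (.B 0 f l) = .P)
    (h6 : ∀ f l, t (.B 1 f l) = .H) : valid fun i => t (cl n b c x w z i) :=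
  hP.DE _ (fun i h h' => atCr h1 i h (by omega) (rel_lt h')) (atCr h2 x hx.1 hx.2 (rel_self x))
    (fun i h h' => atAr h3 i h (by omega) (rel_lt h')) (atAr h4 w hw.1 hw.2 (rel_self w))
    (fun i h h' => atBr hbc h5 i h (rel_lt h')) (atBr hbc h6 z hz.1 (rel_self z))

theorem vDY (hx : 0 < x ∧ x < b) (hw : b < w ∧ w < c) (hz : c < z ∧ z < n) (hbc : b < c)
    (hP : CovX n b c x w z valid) (h1 : ∀ f l, t (.C 2 f l) = .N) (h2 : ∀ f l, t (.C 1 f l) = .H)
    (h3 : t (.A 2) = .N) (h4 : t (.A 1) = .H) (h5 : ∀ f l, t (.B 2 f l) = .N)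
    (h6 : ∀ f l, t (.B 1 f l) = .H) : valid fun i => t (cl n b c x w z i) :=
  hP.DF _ (fun i h h' => atCr h1 i (by omega) h' (rel_gt h)) (atCr h2 x hx.1 hx.2 (rel_self x))
    (fun i h h' => atAr h3 i (by omega) h' (rel_gt h)) (atAr h4 w hw.1 hw.2 (rel_self w))
    (fun i h _ => atBr hbc h5 i (by omega) (rel_gt h)) (atBr hbc h6 z hz.1 (rel_self z))

theorem vA1 (hw : b < w ∧ w < c) (hP : CovA n b c w valid)
    (h1 : t .a = .K) (h2 : ∀ r f l, t (.C r f l) = .N) (h3 : t (.A 1) = .H) (h4 : t (.A 2) = .N) :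
    valid fun i => t (cl n b c x w z i) :=
  hP.D1 _ (at0 h1) (atC h2) (atAr h3 w hw.1 hw.2 (rel_self w))
    fun i h h' => atAr h4 i (by omega) h' (rel_gt h)

theorem vA2 (hw : b < w ∧ w < c) (hbc : b < c) (hP : CovA n b c w valid)
    (h1 : t .a = .K) (h2 : ∀ r f l, t (.B r f l) = .P) (h3 : t (.A 1) = .H) (h4 : t (.A 0) = .P) :
    valid fun i => t (cl n b c x w z i) :=
  hP.D2 _ (at0 h1) (atB hbc h2) (atAr h3 w hw.1 hw.2 (rel_self w))
    fun i h h' => atAr h4 i h (by omega) (rel_lt h')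

theorem vB1 (h0 : 0 < b) (hbc : b < c) (hz : c < z ∧ z < n) (hP : CovB n b c z valid)
    (h1 : t .b = .K) (h2 : ∀ r, t (.A r) = .N) (h3 : ∀ f l, t (.B 1 f l) = .H)
    (h4 : ∀ f l, t (.B 2 f l) = .N) : valid fun i => t (cl n b c x w z i) :=
  hP.D1 _ (atb h0 h1) (atA h2) (atBr hbc h3 z hz.1 (rel_self z))
    fun i h _ => atBr hbc h4 i (by omega) (rel_gt h)

theorem vB2 (h0 : 0 < b) (hbc : b < c) (hz : c < z ∧ z < n) (hP : CovB n b c z valid)
    (h1 : t .b = .K) (h2 : ∀ r f l, t (.C r f l) = .P) (h3 : ∀ f l, t (.B 1 f l) = .H)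
    (h4 : ∀ f l, t (.B 0 f l) = .P) : valid fun i => t (cl n b c x w z i) :=
  hP.D2 _ (atb h0 h1) (atC h2) (atBr hbc h3 z hz.1 (rel_self z))
    fun i h h' => atBr hbc h4 i h (rel_lt h')

theorem vC1 (h0 : 0 < b) (hbc : b < c) (hx : 0 < x ∧ x < b) (hP : CovC n b c x valid)
    (h1 : t .c = .K) (h2 : ∀ r, t (.A r) = .P) (h3 : ∀ f l, t (.C 1 f l) = .H)
    (h4 : ∀ f l, t (.C 0 f l) = .P) : valid fun i => t (cl n b c x w z i) :=
  hP.D1 _ (atc h0 hbc h1) (atA h2) (atCr h3 x hx.1 hx.2 (rel_self x))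
    fun i h h' => atCr h4 i h (by omega) (rel_lt h')

theorem vC2 (h0 : 0 < b) (hbc : b < c) (hx : 0 < x ∧ x < b) (hP : CovC n b c x valid)
    (h1 : t .c = .K) (h2 : ∀ r f l, t (.B r f l) = .N) (h3 : ∀ f l, t (.C 1 f l) = .H)
    (h4 : ∀ f l, t (.C 2 f l) = .N) : valid fun i => t (cl n b c x w z i) :=
  hP.D2 _ (atc h0 hbc h1) (atB hbc h2) (atCr h3 x hx.1 hx.2 (rel_self x))
    fun i h h' => atCr h4 i (by omega) h' (rel_gt h)

/-! ### The occurring classes -/

theorem occ_no (i j : ℕ) (p q : Prop) [Decidable p] [Decidable q] (h : i < j) :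
    oLo (rel i j) (decide p) (decide q) = true := by
  rw [rel_lt h]
  rfl

theorem occ_hi (i : ℕ) (p q : Prop) [Decidable p] [Decidable q] (h : 0 < i) :
    oHi (rel i 0) (decide p) (decide q) = true := by
  rw [rel_gt h]
  rfl

theorem occ_any {i s e x : ℕ} (h1 : s ≤ x) (h2 : x < e) (hs : s ≤ i) (he : i < e) :
    oAny (rel i x) (decide (i = s)) (decide (i + 1 = e)) = true := by
  rcases Nat.lt_trichotomy i x with h | h | h
  · rw [rel_lt h, decide_eq_false (show ¬ i + 1 = e by omega)]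
    cases decide (i = s) <;> rfl
  · rw [rel_eq_one.2 h]
    cases decide (i = s) <;> cases decide (i + 1 = e) <;> rfl
  · rw [rel_gt h, decide_eq_false (show ¬ i = s by omega)]
    cases decide (i + 1 = e) <;> rfl

theorem occ_nl {i s e x : ℕ} (h1 : s ≤ x) (h2 : x + 1 < e) (hs : s ≤ i) (he : i < e) :
    oNl (rel i x) (decide (i = s)) (decide (i + 1 = e)) = true := by
  rcases Nat.lt_trichotomy i x with h | h | h
  · rw [rel_lt h, decide_eq_false (show ¬ i + 1 = e by omega)]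
    cases decide (i = s) <;> rfl
  · rw [rel_eq_one.2 h, decide_eq_false (show ¬ i + 1 = e by omega)]
    cases decide (i = s) <;> rfl
  · rw [rel_gt h, decide_eq_false (show ¬ i = s by omega)]
    cases decide (i + 1 = e) <;> rfl

theorem occ_nf {i s e x : ℕ} (h1 : s < x) (h2 : x < e) (hs : s ≤ i) (he : i < e) :
    oNf (rel i x) (decide (i = s)) (decide (i + 1 = e)) = true := by
  rcases Nat.lt_trichotomy i x with h | h | h
  · rw [rel_lt h, decide_eq_false (show ¬ i + 1 = e by omega)]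
    cases decide (i = s) <;> rfl
  · rw [rel_eq_one.2 h, decide_eq_false (show ¬ i = s by omega)]
    cases decide (i + 1 = e) <;> rfl
  · rw [rel_gt h, decide_eq_false (show ¬ i = s by omega)]
    cases decide (i + 1 = e) <;> rfl

theorem occ_la {i e x : ℕ} (p : Prop) [Decidable p] (h2 : x + 1 = e) (he : i < e) :
    oLa (rel i x) (decide p) (decide (i + 1 = e)) = true := by
  rcases Nat.lt_trichotomy i x with h | h | h
  · rw [rel_lt h, decide_eq_false (show ¬ i + 1 = e by omega)]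
    rfl
  · rw [rel_eq_one.2 h, decide_eq_true (show i + 1 = e by omega)]
    rfl
  · omega

theorem occ_fi {i s x : ℕ} (p : Prop) [Decidable p] (h2 : x = s) (hs : s ≤ i) :
    oFi (rel i x) (decide (i = s)) (decide p) = true := by
  rcases Nat.lt_trichotomy i x with h | h | h
  · omega
  · rw [rel_eq_one.2 h, decide_eq_true (show i = s by omega)]
    rfl
  · rw [rel_gt h, decide_eq_false (show ¬ i = s by omega)]
    rfl

end

end Pool.Agent.H62.FL
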