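import Pool.Agent.H62.FL.TTab

/-!
# Project FL (MP_8a5d4f_co): from a table to a slot system
-/

set_option autoImplicit false

namespace Pool.Agent.H62.FL

theorem sum_ind (n p : ℕ) (e : ℤ) (h : p < n ∨ e = 0) :
    ∑ i ∈ Finset.range n, (if i = p then e else 0) = e := by
  rw [Finset.sum_ite_eq']
  rcases h with h | h
  · rw [if_pos (Finset.mem_range.2 h)]
  · rw [h]
    exact ite_self 0

section

variable {n b c x w z : ℕ} {T : Tab} {oC oB : Fin 3 → Bool → Bool → Bool} {oA : Bool}
  {ea eb ec kC kA kB fC lC fB lB : ℤ}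

/-- the correction at the vertex `i` -/
def crr (n b c x w z : ℕ) (ea eb ec kC kA kB fC lC fB lB : ℤ) (i : ℕ) : ℤ :=
  (if i = 0 then ea else 0) + (if i = b then eb else 0) + (if i = c then ec else 0) +
    (if i = x then kC else 0) + (if i = w then kA else 0) + (if i = z then kB else 0) +
    (if i = 1 then fC else 0) + (if i = b - 1 then lC else 0) +
    (if i = c + 1 then fB else 0) + (if i = n - 1 then lB else 0)

theorem wt_le (h0 : 0 < b) (hbc : b < c) (hcn : c < n)
    (hW : TabW T oC oB oA ea eb ec kC kA kB fC lC fB lB)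
    (hx : (0 < x ∧ x < b) ∨ kC = 0) (hw : (b < w ∧ w < c) ∨ kA = 0) (hz : (c < z ∧ z < n) ∨ kB = 0)
    (hC0 : b = 1 → fC = 0 ∧ lC = 0) (hB0 : c + 1 = n → fB = 0 ∧ lB = 0)
    (hA : b + 1 < c → oA = true)
    (hC : ∀ i, 0 < i → i < b → oC (rel i x) (decide (i = 1)) (decide (i + 1 = b)) = true)
    (hB : ∀ i, c < i → i < n → oB (rel i z) (decide (i = c + 1)) (decide (i + 1 = n)) = true)
    {i : ℕ} (hi : i < n) :
    (wtc T (cl n b c x w z i) : ℤ) ≤ 9 + crr n b c x w z ea eb ec kC kA kB fC lC fB lB i := by
  have hX : ∀ j : ℕ, ¬ (0 < j ∧ j < b) → (if j = x then kC else 0) = 0 := by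
    intro j hj
    rcases hx with h | h
    · rw [if_neg]
      rintro rfl
      exact hj h
    · rw [h, ite_self]
  have hWw : ∀ j : ℕ, ¬ (b < j ∧ j < c) → (if j = w then kA else 0) = 0 := by
    intro j hj
    rcases hw with h | h
    · rw [if_neg]
      rintro rfl
      exact hj h
    · rw [h, ite_self]
  have hZ : ∀ j : ℕ, ¬ (c < j ∧ j < n) → (if j = z then kB else 0) = 0 := by
    intro j hj
    rcases hz with h | h
    · rw [if_neg]
      rintro rfl
      exact hj h
    · rw [h, ite_self]
  have hfC : ∀ j : ℕ, ¬ (0 < j ∧ j < b) → (if j = 1 then fC else 0) = 0 := by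
    intro j hj
    by_cases h1 : j = 1
    · rw [(hC0 (by omega)).1, ite_self]
    · rw [if_neg h1]
  have hlC : ∀ j : ℕ, ¬ (0 < j ∧ j < b) → (if j = b - 1 then lC else 0) = 0 := by
    intro j hj
    by_cases h1 : j = b - 1
    · rw [(hC0 (by omega)).2, ite_self]
    · rw [if_neg h1]
  have hfB : ∀ j : ℕ, ¬ (c < j ∧ j < n) → (if j = c + 1 then fB else 0) = 0 := by
    intro j hj
    by_cases h1 : j = c + 1
    · by_cases h2 : c + 1 = n
      · rw [(hB0 h2).1, ite_self]
      · exact absurd (by omega) hj
    · rw [if_neg h1]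
  have hlB : ∀ j : ℕ, ¬ (c < j ∧ j < n) → (if j = n - 1 then lB else 0) = 0 := by
    intro j hj
    by_cases h1 : j = n - 1
    · rw [(hB0 (by omega)).2, ite_self]
    · rw [if_neg h1]
  unfold crr
  by_cases i0 : i = 0
  · rw [i0, cl_zero, if_pos rfl, if_neg (by omega), if_neg (by omega), hX 0 (by omega),
      hWw 0 (by omega), hZ 0 (by omega), hfC 0 (by omega), hlC 0 (by omega), hfB 0 (by omega),
      hlB 0 (by omega)]
    have := hW.a
    linarith
  by_cases ib : i < b
  · rw [cl_C (by omega) ib, if_neg i0, if_neg (by omega), if_neg (by omega), hWw i (by omega),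
      hZ i (by omega), hfB i (by omega), hlB i (by omega)]
    have h1 := hW.C _ _ _ (hC i (by omega) ib)
    simp only [rel_eq_one, decide_eq_true_eq] at h1
    have h2 : (if i = b - 1 then lC else 0) = (if i + 1 = b then lC else 0) := by
      by_cases h3 : i = b - 1
      · rw [if_pos h3, if_pos (by omega)]
      · rw [if_neg h3, if_neg (by omega)]
    rw [h2]
    linarith
  by_cases ib' : i = b
  · rw [ib', cl_b h0, if_neg (by omega), if_pos rfl, if_neg (by omega), hX b (by omega),
      hWw b (by omega), hZ b (by omega), hfC b (by omega), hlC b (by omega), hfB b (by omega),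
      hlB b (by omega)]
    have := hW.b
    linarith
  by_cases ic : i < c
  · rw [cl_A (by omega) ic, if_neg i0, if_neg ib', if_neg (by omega), hX i (by omega),
      hZ i (by omega), hfC i (by omega), hlC i (by omega), hfB i (by omega), hlB i (by omega)]
    have h1 := hW.A (hA (by omega)) (rel i w)
    simp only [rel_eq_one] at h1
    linarith
  by_cases ic' : i = c
  · rw [ic', cl_c h0 hbc, if_neg (by omega), if_neg (by omega), if_pos rfl, hX c (by omega),
      hWw c (by omega), hZ c (by omega), hfC c (by omega), hlC c (by omega), hfB c (by omega),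
      hlB c (by omega)]
    have := hW.c
    linarith
  · rw [cl_B hbc (by omega), if_neg i0, if_neg ib', if_neg ic', hX i (by omega), hWw i (by omega),
      hfC i (by omega), hlC i (by omega)]
    have h1 := hW.B _ _ _ (hB i (by omega) hi)
    simp only [rel_eq_one, decide_eq_true_eq] at h1
    have h2 : (if i = n - 1 then lB else 0) = (if i + 1 = n then lB else 0) := by
      by_cases h3 : i = n - 1
      · rw [if_pos h3, if_pos (by omega)]
      · rw [if_neg h3, if_neg (by omega)]
    rw [h2]
    linarith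

theorem sum_crr (h0 : 0 < b) (hbc : b < c) (hcn : c < n)
    (hx : (0 < x ∧ x < b) ∨ kC = 0) (hw : (b < w ∧ w < c) ∨ kA = 0) (hz : (c < z ∧ z < n) ∨ kB = 0)
    (hB0 : c + 1 = n → fB = 0 ∧ lB = 0) :
    ∑ i ∈ Finset.range n, (9 + crr n b c x w z ea eb ec kC kA kB fC lC fB lB i) =
      9 * (n : ℤ) + (ea + eb + ec + kC + kA + kB + fC + lC + fB + lB) := by
  unfold crr
  simp only [Finset.sum_add_distrib]
  rw [sum_ind n 0 ea (Or.inl (by omega)), sum_ind n b eb (Or.inl (by omega)),
    sum_ind n c ec (Or.inl (by omega)),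
    sum_ind n x kC (hx.imp (fun h => by omega) id),
    sum_ind n w kA (hw.imp (fun h => by omega) id),
    sum_ind n z kB (hz.imp (fun h => by omega) id),
    sum_ind n 1 fC (Or.inl (by omega)), sum_ind n (b - 1) lC (Or.inl (by omega)),
    sum_ind n (c + 1) fB (by
      by_cases h : c + 1 = n
      · exact Or.inr (hB0 h).1
      · exact Or.inl (by omega)),
    sum_ind n (n - 1) lB (Or.inl (by omega))]
  simp only [Finset.sum_const, Finset.card_range, nsmul_eq_mul]
  ring

/-- A table gives a slot system. -/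
theorem good_of_tab (h0 : 0 < b) (hbc : b < c) (hcn : c < n)
    (hT : TabOK T oC oB (decide (b = 1)) (decide (c + 1 = n)))
    (hW : TabW T oC oB oA ea eb ec kC kA kB fC lC fB lB)
    (hx : (0 < x ∧ x < b) ∨ kC = 0) (hw : (b < w ∧ w < c) ∨ kA = 0) (hz : (c < z ∧ z < n) ∨ kB = 0)
    (hC0 : b = 1 → fC = 0 ∧ lC = 0) (hB0 : c + 1 = n → fB = 0 ∧ lB = 0)
    (hA : b + 1 < c → oA = true)
    (hC : ∀ i, 0 < i → i < b → oC (rel i x) (decide (i = 1)) (decide (i + 1 = b)) = true)
    (hB : ∀ i, c < i → i < n → oB (rel i z) (decide (i = c + 1)) (decide (i + 1 = n)) = true)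
    (hE : ea + eb + ec + kC + kA + kB + fC + lC + fB + lB +
      (if b = 1 ∨ c + 1 = n then 3 else 0) ≤ -9) :
    Good n b c (fun k i => T.s k (cl n b c x w z i)) (fun i => T.R (cl n b c x w z i))
      (fun i => if i = n then T.R Cl.a else T.L (cl n b c x w z i)) := by
  have hch : ∀ i, (0 < i ∧ i < b) ∨ (c < i ∧ i < n) → ChOK T (cl n b c x w z i) := by
    rintro i (⟨h1, h2⟩ | ⟨h1, h2⟩)
    · rw [cl_C h1 h2]
      exact hT.C _ _ _ (hC i h1 h2)
    · rw [cl_B hbc h1]
      exact hT.B _ _ _ (hB i h1 h2)
  refine ⟨?_, ?_, ?_, ?_, ?_, ?_, ?_, ?_, ?_, ?_, ?_, ?_, ?_, ?_, ?_, ?_, ?_, ?_, ?_, ?_, ?_, ?_, ?_⟩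
  · rintro i h
    by_cases i0 : i = 0
    · simp only [i0, cl_zero]
      exact hT.a.1
    by_cases ic : i = c
    · simp only [ic, cl_c h0 hbc]
      exact hT.c.1
    · exact (hch i (by omega)).1
  · intro i h
    by_cases hin : i = n
    · simp only [hin, if_pos]
      exact hT.a.1
    · simp only [if_neg hin]
      by_cases ib : i = b
      · simp only [ib, cl_b h0]
        exact hT.b.1
      · exact (hch i (by omega)).2.1
  · simp only [if_true, cl_zero]
  · intro i h
    have hin : i ≠ n := by omega
    simp only [if_neg hin]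
    exact (hch i h).2.2.1
  · intro i h
    by_cases i0 : i = 0
    · subst i0
      have hin : 0 + 1 ≠ n := by omega
      simp only [if_neg hin, cl_zero]
      by_cases hb1 : b = 1
      · subst hb1
        rw [zero_add, cl_b h0]
        exact hT.ab (decide_eq_true rfl)
      · rw [cl_C (by omega) (by omega)]
        have h1 := hC (0 + 1) (by omega) (by omega)
        have h2 : decide (0 + 1 = 1) = true := rfl
        rw [h2] at h1 ⊢
        exact hT.aC _ _ h1
    by_cases ib : i < b
    · have hin : i + 1 ≠ n := by omega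
      simp only [if_neg hin]
      rw [cl_C (by omega) ib]
      have h1 := hC i (by omega) ib
      by_cases hib : i + 1 = b
      · rw [decide_eq_true hib] at h1 ⊢
        rw [hib, cl_b h0]
        exact hT.Cb _ _ h1
      · rw [cl_C (by omega) (by omega)]
        have h2 := hC (i + 1) (by omega) (by omega)
        have h3 : decide (i + 1 = 1) = false := decide_eq_false (by omega)
        rw [decide_eq_false hib] at h1 ⊢
        rw [h3] at h2 ⊢
        exact hT.CC _ _ _ _ h1 h2 (stp_rel i x)
    by_cases ic : i = c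
    · subst ic
      by_cases hin : i + 1 = n
      · simp only [if_pos hin]
        rw [cl_c h0 hbc]
        exact hT.ca (decide_eq_true hin)
      · simp only [if_neg hin]
        rw [cl_c h0 hbc, cl_B hbc (by omega)]
        have h1 := hB (i + 1) (by omega) (by omega)
        have h2 : decide (i + 1 = i + 1) = true := decide_eq_true rfl
        rw [h2] at h1 ⊢
        exact hT.cB _ _ h1
    · have h1 := hB i (by omega) (by omega)
      rw [cl_B hbc (by omega)]
      by_cases hin : i + 1 = n
      · simp only [if_pos hin]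
        rw [decide_eq_true hin] at h1 ⊢
        exact hT.Ba _ _ h1
      · simp only [if_neg hin]
        rw [cl_B hbc (by omega)]
        have h2 := hB (i + 1) (by omega) (by omega)
        have h3 : decide (i + 1 = c + 1) = false := decide_eq_false (by omega)
        rw [decide_eq_false hin] at h1 ⊢
        rw [h3] at h2 ⊢
        exact hT.BB _ _ _ _ h1 h2 (stp_rel i z)
  · intro i h
    exact (hch i h).2.2.2.1
  · intro i h
    have hin : i ≠ n := by omega
    simp only [if_neg hin]
    exact (hch i h).2.2.2.2.1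
  · intro i h
    exact (hch i h).2.2.2.2.2.1
  · intro i h
    have hin : i ≠ n := by omega
    simp only [if_neg hin]
    exact (hch i h).2.2.2.2.2.2.1
  · intro i h1 h2
    have h3 := hC i h1 (by omega)
    simp only [cl_C h1 (show i < b by omega)]
    rw [decide_eq_true h2] at h3 ⊢
    exact hT.lC _ _ h3
  · intro h1
    have hin : c + 1 ≠ n := by omega
    simp only [if_neg hin]
    have h3 := hB (c + 1) (by omega) (by omega)
    rw [cl_B hbc (show c < c + 1 by omega)]
    rw [show decide (c + 1 = c + 1) = true from decide_eq_true rfl] at h3 ⊢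
    exact hT.fB _ _ h3
  · intro k hk
    simp only [cl_zero] at hk ⊢
    exact hT.a.2.1 k hk
  · simp only [cl_zero]
    exact hT.a.2.2.1
  · intro k hk
    have hin : b ≠ n := by omega
    simp only [if_neg hin, cl_b h0] at hk ⊢
    exact hT.b.2.1 k hk
  · simp only [cl_b h0]
    exact hT.b.2.2.1
  · intro k hk
    simp only [cl_c h0 hbc] at hk ⊢
    exact hT.c.2.1 k hk
  · simp only [cl_c h0 hbc]
    exact hT.c.2.2.1
  · intro k
    simp only [cl_zero]
    exact hT.a.2.2.2 k
  · intro k
    simp only [cl_b h0]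
    exact hT.b.2.2.2 k
  · intro k
    simp only [cl_c h0 hbc]
    exact hT.c.2.2.2 k
  · intro i h k
    exact (hch i h).2.2.2.2.2.2.2 k
  · intro i h1 h2 k
    simp only [cl_A h1 h2]
    exact hT.A _ _
  · have h1 : (∑ i ∈ Finset.range n, (wtc T (cl n b c x w z i) : ℤ)) ≤
        9 * (n : ℤ) + (ea + eb + ec + kC + kA + kB + fC + lC + fB + lB) := by
      rw [← sum_crr h0 hbc hcn hx hw hz hB0]
      exact Finset.sum_le_sum fun i hi =>
        wt_le h0 hbc hcn hW hx hw hz hC0 hB0 hA hC hB (Finset.mem_range.1 hi)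
    have h2 : (∑ i ∈ Finset.range n, wt (fun k i => T.s k (cl n b c x w z i)) i) =
        ∑ i ∈ Finset.range n, wtc T (cl n b c x w z i) := rfl
    rw [h2]
    have h3 : ((∑ i ∈ Finset.range n, wtc T (cl n b c x w z i) : ℕ) : ℤ) =
        ∑ i ∈ Finset.range n, (wtc T (cl n b c x w z i) : ℤ) := Nat.cast_sum _ _
    rw [← h3] at h1
    split_ifs at hE ⊢ <;> omega

end

end Pool.Agent.H62.FL
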