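import Pool.Agent.H62.FL.TDef

/-!
# Project FL (MP_8a5d4f_co): finite tables

The vertices of a pseudo-triangle with the corners `0, b, c` fall into finitely many classes
(position relative to the core vertex of the chain, first vertex, last vertex). A table describes
the states and the sets for each class.
-/

set_option autoImplicit false

namespace Pool.Agent.H62.FL

/-- Classes of the vertices: the three corners, a vertex of one of the three chains (`r`: before,
at, after the core vertex of its chain; `f`, `l`: is it the first, the last vertex). -/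
inductive Cl
  | a | b | c
  | C (r : Fin 3) (f l : Bool)
  | A (r : Fin 3)
  | B (r : Fin 3) (f l : Bool)

def rel (i x : ℕ) : Fin 3 := if i < x then 0 else if i = x then 1 else 2

/-- the class of the vertex `i` -/
def cl (n b c x w z i : ℕ) : Cl :=
  if i = 0 then Cl.a
  else if i < b then Cl.C (rel i x) (decide (i = 1)) (decide (i + 1 = b))
  else if i = b then Cl.b
  else if i < c then Cl.A (rel i w)
  else if i = c then Cl.c
  else Cl.B (rel i z) (decide (i = c + 1)) (decide (i + 1 = n))

/-- A table. -/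
structure Tab where
  s : Fin 14 → Cl → St
  R : Cl → Finset (Fin 14)
  L : Cl → Finset (Fin 14)

/-- may `r'` follow `r`? -/
def stp (r r' : Fin 3) : Bool :=
  (r == 0 && r' == 0) || (r == 0 && r' == 1) || (r == 1 && r' == 2) || (r == 2 && r' == 2)

def wtc (T : Tab) (q : Cl) : ℕ := (Finset.univ.filter fun k => T.s k q ≠ St.off).card

/-- The conditions for one class of an open chain. -/
def ChOK (T : Tab) (q : Cl) : Prop :=
  (T.R q).card = 6 ∧ (T.L q).card = 6 ∧ Disjoint (T.R q) (T.L q) ∧
    (∀ k ∈ T.R q, T.s k q = St.off ∨ T.s k q = St.N) ∧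
    (∀ k ∈ T.L q, T.s k q = St.off ∨ T.s k q = St.P) ∧
    4 ≤ ((T.R q).filter fun k => T.s k q = St.N).card ∧
    4 ≤ ((T.L q).filter fun k => T.s k q = St.P).card ∧ ∀ k, T.s k q ≠ St.K

instance (T : Tab) (q : Cl) : Decidable (ChOK T q) := by unfold ChOK; infer_instance

/-- The conditions for a corner with the set `S`. -/
def CoOK (T : Tab) (q : Cl) (S : Finset (Fin 14)) (m : ℕ) : Prop :=
  S.card = 6 ∧ (∀ k, T.s k q = St.K → k ∈ S) ∧
    m ≤ (Finset.univ.filter fun k => T.s k q = St.K).card ∧ ∀ k, T.s k q = St.off ∨ T.s k q = St.K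

instance (T : Tab) (q : Cl) (S : Finset (Fin 14)) (m : ℕ) : Decidable (CoOK T q S m) := by
  unfold CoOK; infer_instance

/-- The conditions on a table; `oC`, `oB`: which classes occur; `eC`, `eB`: is the chain empty. -/
structure TabOK (T : Tab) (oC oB : Fin 3 → Bool → Bool → Bool) (eC eB : Bool) : Prop where
  a : CoOK T Cl.a (T.R Cl.a) 5
  b : CoOK T Cl.b (T.L Cl.b) 4
  c : CoOK T Cl.c (T.R Cl.c) 4
  C : ∀ r f l, oC r f l = true → ChOK T (Cl.C r f l)
  B : ∀ r f l, oB r f l = true → ChOK T (Cl.B r f l)
  lC : ∀ r f, oC r f true = true →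
    5 ≤ ((T.R (Cl.C r f true)).filter fun k => T.s k (Cl.C r f true) = St.N).card
  fB : ∀ r l, oB r true l = true →
    5 ≤ ((T.L (Cl.B r true l)).filter fun k => T.s k (Cl.B r true l) = St.P).card
  aC : ∀ r l, oC r true l = true → Disjoint (T.R Cl.a) (T.L (Cl.C r true l))
  CC : ∀ r r' f l, oC r f false = true → oC r' false l = true → stp r r' = true →
    Disjoint (T.R (Cl.C r f false)) (T.L (Cl.C r' false l))
  Cb : ∀ r f, oC r f true = true → Disjoint (T.R (Cl.C r f true)) (T.L Cl.b)
  cB : ∀ r l, oB r true l = true → Disjoint (T.R Cl.c) (T.L (Cl.B r true l))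
  BB : ∀ r r' f l, oB r f false = true → oB r' false l = true → stp r r' = true →
    Disjoint (T.R (Cl.B r f false)) (T.L (Cl.B r' false l))
  Ba : ∀ r f, oB r f true = true → Disjoint (T.R (Cl.B r f true)) (T.R Cl.a)
  ab : eC = true → Disjoint (T.R Cl.a) (T.L Cl.b)
  ca : eB = true → Disjoint (T.R Cl.c) (T.R Cl.a)
  A : ∀ r k, T.s k (Cl.A r) ≠ St.K

/-- The bounds for the numbers of lights: `9` for every vertex, with corrections at the corners,
the core vertices, the first and the last vertices. -/
structure TabW (T : Tab) (oC oB : Fin 3 → Bool → Bool → Bool) (oA : Bool)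
    (ea eb ec kC kA kB fC lC fB lB : ℤ) : Prop where
  a : (wtc T Cl.a : ℤ) ≤ 9 + ea
  b : (wtc T Cl.b : ℤ) ≤ 9 + eb
  c : (wtc T Cl.c : ℤ) ≤ 9 + ec
  C : ∀ r f l, oC r f l = true → (wtc T (Cl.C r f l) : ℤ) ≤
    9 + (if r = 1 then kC else 0) + (if f = true then fC else 0) + (if l = true then lC else 0)
  A : oA = true → ∀ r, (wtc T (Cl.A r) : ℤ) ≤ 9 + (if r = 1 then kA else 0)
  B : ∀ r f l, oB r f l = true → (wtc T (Cl.B r f l) : ℤ) ≤
    9 + (if r = 1 then kB else 0) + (if f = true then fB else 0) + (if l = true then lB else 0)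

theorem rel_eq_one {i x : ℕ} : rel i x = 1 ↔ i = x := by
  unfold rel
  split_ifs with h1 h2
  · constructor
    · intro h
      exact absurd h (by decide)
    · intro h
      omega
  · exact ⟨fun _ => h2, fun _ => rfl⟩
  · constructor
    · intro h
      exact absurd h (by decide)
    · intro h
      omega

theorem stp_rel (i x : ℕ) : stp (rel i x) (rel (i + 1) x) = true := by
  unfold rel
  split_ifs <;> first | rfl | omega

section

variable {n b c x w z : ℕ}

theorem cl_zero : cl n b c x w z 0 = Cl.a := by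
  unfold cl
  rw [if_pos rfl]

theorem cl_C {i : ℕ} (h0 : 0 < i) (hb : i < b) :
    cl n b c x w z i = Cl.C (rel i x) (decide (i = 1)) (decide (i + 1 = b)) := by
  unfold cl
  rw [if_neg (by omega), if_pos hb]

theorem cl_b (h0 : 0 < b) : cl n b c x w z b = Cl.b := by
  unfold cl
  rw [if_neg (by omega), if_neg (by omega), if_pos rfl]

theorem cl_A {i : ℕ} (hb : b < i) (hc : i < c) : cl n b c x w z i = Cl.A (rel i w) := by
  unfold cl
  rw [if_neg (by omega), if_neg (by omega), if_neg (by omega), if_pos hc]

theorem cl_c (h0 : 0 < b) (hbc : b < c) : cl n b c x w z c = Cl.c := by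
  unfold cl
  rw [if_neg (by omega), if_neg (by omega), if_neg (by omega), if_neg (by omega), if_pos rfl]

theorem cl_B {i : ℕ} (hbc : b < c) (hc : c < i) :
    cl n b c x w z i = Cl.B (rel i z) (decide (i = c + 1)) (decide (i + 1 = n)) := by
  unfold cl
  rw [if_neg (by omega), if_neg (by omega), if_neg (by omega), if_neg (by omega),
    if_neg (by omega)]

end

end Pool.Agent.H62.FL
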